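import Pool.Agent.Work.MP_02f065_gt.FR.Stmts

/-!
MP_02f065_gt, block FR, item ADM: induction over the class.
-/

open MeasureTheory Set Filter Topology

noncomputable section

namespace Pool.Agent.Work.MP_02f065_gt.FR

open Pool.Agent.Work.MP_02f065_gt.RPn Pool.Agent.Work.MP_02f065_gt.Cvx

namespace XADM

variable {ι : Type} [Fintype ι]

theorem intg {a : E ι → ℝ} (ha : ContinuousOn a (Metric.sphere (0 : E ι) 1)) :
    Integrable (fun x : Metric.sphere (0 : E ι) 1 => a x) ((volume : Measure (E ι)).toSphere) := by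
  have hc : Continuous (fun x : Metric.sphere (0 : E ι) 1 => a x) :=
    continuousOn_iff_continuous_domRestrict.1 ha
  exact hc.integrable_of_hasCompactSupport (HasCompactSupport.of_compactSpace _)

theorem mono {a b : E ι → ℝ} (ha : ContinuousOn a (Metric.sphere (0 : E ι) 1))
    (hb : ContinuousOn b (Metric.sphere (0 : E ι) 1)) (h : ∀ x : E ι, ‖x‖ = 1 → a x ≤ b x) :
    sInt a ≤ sInt b :=
  integral_mono (intg ha) (intg hb) fun x => h x (mem_sphere_zero_iff_norm.1 x.2)

theorem nonneg {a : E ι → ℝ} (h : ∀ x : E ι, ‖x‖ = 1 → 0 ≤ a x) : 0 ≤ sInt a :=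
  integral_nonneg fun x => h x (mem_sphere_zero_iff_norm.1 x.2)

theorem one_pos [Nonempty ι] : 0 < sInt (ι := ι) (fun _ => 1) := by
  classical
  obtain ⟨i⟩ := ‹Nonempty ι›
  have : Nontrivial (E ι) := by
    refine ⟨⟨EuclideanSpace.single i 1, 0, ?_⟩⟩
    intro h
    have := congrArg (fun z : E ι => ‖z‖) h
    simp at this
  unfold sInt
  rw [integral_const, smul_eq_mul, mul_one]
  rw [Measure.real, ENNReal.toReal_pos_iff]
  constructor
  · rw [Measure.toSphere_apply_univ]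
    refine ENNReal.mul_pos ?_ ?_
    · rw [finrank_euclideanSpace]
      have : Nonempty ι := ⟨i⟩
      simp
    · exact (Metric.measure_ball_pos volume (0 : E ι) _root_.one_pos).ne'
  · exact measure_lt_top _ _

theorem sInt_add {a b : E ι → ℝ} (ha : ContinuousOn a (Metric.sphere (0 : E ι) 1))
    (hb : ContinuousOn b (Metric.sphere (0 : E ι) 1)) :
    sInt (fun x => a x + b x) = sInt a + sInt b := by
  unfold sInt
  exact integral_add (intg ha) (intg hb)

theorem sInt_sub {a b : E ι → ℝ} (ha : ContinuousOn a (Metric.sphere (0 : E ι) 1))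
    (hb : ContinuousOn b (Metric.sphere (0 : E ι) 1)) :
    sInt (fun x => a x - b x) = sInt a - sInt b := by
  unfold sInt
  exact integral_sub (intg ha) (intg hb)

theorem sInt_cmul (c : ℝ) (a : E ι → ℝ) : sInt (fun x => c * a x) = c * sInt a := by
  unfold sInt
  exact integral_const_mul c _

/-- Bernoulli. -/
theorem bern {w T : ℝ} (hw : 0 ≤ w) (hT : 0 < T) (q : ℕ) :
    ((q : ℝ) + 1) * T ^ q * w - (q : ℝ) * T ^ (q + 1) ≤ w ^ (q + 1) := by
  have h1 : -2 ≤ w / T - 1 := by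
    have : 0 ≤ w / T := div_nonneg hw hT.le
    linarith
  have h2 := one_add_mul_le_pow h1 (q + 1)
  have h3 : (1 + (w / T - 1)) ^ (q + 1) = w ^ (q + 1) / T ^ (q + 1) := by
    rw [← div_pow]
    congr 1
    ring
  rw [h3, le_div_iff₀ (by positivity)] at h2
  refine le_trans (le_of_eq ?_) h2
  push_cast
  have hT' := hT.ne'
  field_simp
  ring

/-- Jensen for powers, with a weight. -/
theorem jensen [Nonempty ι] {u W : E ι → ℝ} (hu : ContinuousOn u (Metric.sphere (0 : E ι) 1))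
    (hW : ContinuousOn W (Metric.sphere (0 : E ι) 1)) (h0 : ∀ x : E ι, ‖x‖ = 1 → 0 ≤ u x ∧ 0 ≤ W x)
    (hle : sInt u ≤ sInt (ι := ι) (fun _ => 1)) (q : ℕ) {T : ℝ} (hT : 0 < T)
    (hge : T * sInt (ι := ι) (fun _ => 1) ≤ sInt (fun x => u x * W x)) :
    T ^ (q + 1) * sInt (ι := ι) (fun _ => 1) ≤ sInt (fun x => u x * W x ^ (q + 1)) := by
  have c1 : ContinuousOn (fun x => ((q : ℝ) + 1) * T ^ q * (u x * W x))
      (Metric.sphere (0 : E ι) 1) := continuousOn_const.mul (hu.mul hW)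
  have c2 : ContinuousOn (fun x => (q : ℝ) * T ^ (q + 1) * u x) (Metric.sphere (0 : E ι) 1) :=
    continuousOn_const.mul hu
  have h1 := mono (c1.sub c2) (hu.mul (hW.pow (q + 1))) (fun x hx => by
    obtain ⟨hx1, hx2⟩ := h0 x hx
    have h2 := mul_le_mul_of_nonneg_left (bern hx2 hT q) hx1
    refine le_trans (le_of_eq ?_) h2
    simp only [Pi.sub_apply]
    ring)
  have h2 : sInt (fun x => ((q : ℝ) + 1) * T ^ q * (u x * W x) - (q : ℝ) * T ^ (q + 1) * u x) ≤
      sInt (fun x => u x * W x ^ (q + 1)) := h1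
  rw [sInt_sub c1 c2, sInt_cmul, sInt_cmul] at h2
  set M := sInt (ι := ι) (fun _ => 1)
  have h3 : ((q : ℝ) + 1) * T ^ q * (T * M) ≤
      ((q : ℝ) + 1) * T ^ q * sInt (fun x => u x * W x) :=
    mul_le_mul_of_nonneg_left hge (by positivity)
  have h4 : (q : ℝ) * T ^ (q + 1) * sInt u ≤ (q : ℝ) * T ^ (q + 1) * M :=
    mul_le_mul_of_nonneg_left hle (by positivity)
  have h5 : T ^ (q + 1) * M = ((q : ℝ) + 1) * T ^ q * (T * M) - (q : ℝ) * T ^ (q + 1) * M := by
    rw [pow_succ]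
    ring
  linarith

end XADM

theorem iADM (hFlo : StFloF) : StAdmF := by
  intro ι _ _ m J f e lam hJ hlam hf he hf0 he0 hcir hhor W d hW
  have hM := XADM.one_pos (ι := ι)
  set M := sInt (ι := ι) (fun _ => 1) with hMd
  induction hW with
  | base u h1 h2 h3 => exact ⟨h1, h2, by rw [pow_zero, one_mul]; exact h3⟩
  | hor hm => exact ⟨he, he0, by rw [pow_one]; exact hhor hm⟩
  | ver i W d _ hle ih =>
    obtain ⟨h1, h2, h3⟩ := ih
    refine ⟨(hf i).mul h1, fun x hx => mul_nonneg (hf0 i x hx) (h2 x hx), ?_⟩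
    obtain ⟨c1, c2, c3⟩ := hFlo ι m J hJ i W h1
    obtain ⟨d1, d2, -⟩ := hFlo ι m J hJ i (f i) (hf i)
    have e1 : lam * sInt W = sInt (fun x => lam * circMean (J i) W x) := by
      rw [← c2]
      exact (integral_const_mul _ _).symm
    have e2 : sInt (fun x => lam * circMean (J i) W x) ≤
        sInt (fun x => circMean (J i) (f i) x * circMean (J i) W x) := by
      refine XADM.mono (continuousOn_const.mul c1) (d1.mul c1) fun x hx => ?_
      exact mul_le_mul_of_nonneg_right (hcir i x hx) (c3 h2 x hx)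
    calc lam ^ (d + 1) * M = lam * (lam ^ d * M) := by ring
      _ ≤ lam * sInt W := mul_le_mul_of_nonneg_left h3 hlam.le
      _ = _ := e1
      _ ≤ _ := e2
      _ ≤ _ := hle
  | cor W W' d d' _ _ hle ih ih' =>
    obtain ⟨h1, h2, h3⟩ := ih
    obtain ⟨g1, g2, g3⟩ := ih'
    refine ⟨h1.mul g1, fun x hx => mul_nonneg (h2 x hx) (g2 x hx), ?_⟩
    have e1 : (lam ^ d * M) * (lam ^ d' * M) ≤ sInt W * sInt W' :=
      mul_le_mul h3 g3 (by positivity) (XADM.nonneg h2)
    have e2 : M * (lam ^ (d + d') * M) ≤ M * sInt (fun x => W x * W' x) := by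
      refine le_trans (le_of_eq ?_) (e1.trans hle)
      rw [pow_add]
      ring
    exact le_of_mul_le_mul_left e2 hM
  | pow u W d p hp hu hW h0 hle _ ih =>
    obtain ⟨-, -, h3⟩ := ih
    refine ⟨hu.mul (hW.pow p), fun x hx => mul_nonneg (h0 x hx).1 (pow_nonneg (h0 x hx).2 p), ?_⟩
    obtain ⟨q, rfl⟩ : ∃ q, p = q + 1 := ⟨p - 1, by omega⟩
    have e1 := XADM.jensen hu hW h0 hle q (pow_pos hlam d) h3
    rw [← pow_mul, mul_comm d] at e1
    exact e1
  | mix W W' d t ht0 ht1 _ _ ih ih' =>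
    obtain ⟨h1, h2, h3⟩ := ih
    obtain ⟨g1, g2, g3⟩ := ih'
    have ht2 : 0 ≤ 1 - t := by linarith
    refine ⟨(continuousOn_const.mul h1).add (continuousOn_const.mul g1), fun x hx =>
      add_nonneg (mul_nonneg ht0 (h2 x hx)) (mul_nonneg ht2 (g2 x hx)), ?_⟩
    have c1 : ContinuousOn (fun x => t * W x) (Metric.sphere (0 : E ι) 1) :=
      continuousOn_const.mul h1
    have c2 : ContinuousOn (fun x => (1 - t) * W' x) (Metric.sphere (0 : E ι) 1) :=
      continuousOn_const.mul g1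
    rw [XADM.sInt_add c1 c2, XADM.sInt_cmul, XADM.sInt_cmul]
    have e1 := mul_le_mul_of_nonneg_left h3 ht0
    have e2 := mul_le_mul_of_nonneg_left g3 ht2
    calc lam ^ d * M = t * (lam ^ d * M) + (1 - t) * (lam ^ d * M) := by ring
      _ ≤ _ := add_le_add e1 e2
  | mono W W' d _ hc hle ih =>
    obtain ⟨h1, h2, h3⟩ := ih
    exact ⟨hc, fun x hx => (h2 x hx).trans (hle x hx), h3.trans (XADM.mono h1 hc hle)⟩

end Pool.Agent.Work.MP_02f065_gt.FR
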