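import Pool.Agent.Work.MP_02f065_gt.FR.Stmts

/-!
MP_02f065_gt, block FR, items BAS and ISO: algebra of a linear orthonormal frame; isometries
between frames.
-/

open MeasureTheory Set Filter Topology

noncomputable section

namespace Pool.Agent.Work.MP_02f065_gt.FR

open Pool.Agent.Work.MP_02f065_gt.RPn Pool.Agent.Work.MP_02f065_gt.Cvx

namespace XBAS

variable {ι : Type} [Fintype ι] {m : ℕ} {J : Fin m → E ι → E ι}

theorem skew (hJ : IsFrame J) (i : Fin m) (x y : E ι) :
    inner ℝ (J i x) y = -(inner ℝ x (J i y) : ℝ) := by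
  have h1 := hJ.tangent i (x + y)
  rw [(hJ.linear i).map_add, inner_add_left, inner_add_right, inner_add_right, hJ.tangent,
    hJ.tangent, real_inner_comm (J i x) y] at h1
  linarith

theorem pol (hJ : IsFrame J) (i j : Fin m) (x y : E ι) :
    inner ℝ (J i x) (J j y) + inner ℝ (J i y) (J j x) =
      if i = j then 2 * (inner ℝ x y : ℝ) else 0 := by
  have h1 := hJ.ortho i j (x + y)
  rw [(hJ.linear i).map_add, (hJ.linear j).map_add, inner_add_left, inner_add_right,
    inner_add_right, hJ.ortho, hJ.ortho] at h1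
  by_cases hij : i = j
  · simp only [hij, if_true] at h1 ⊢
    rw [inner_add_left, inner_add_right, inner_add_right, real_inner_comm x y] at h1
    linarith
  · simp only [hij, if_false] at h1 ⊢
    linarith

theorem sq (hJ : IsFrame J) (i : Fin m) (x : E ι) : J i (J i x) = -x := by
  apply ext_inner_right ℝ
  intro y
  rw [skew hJ, inner_neg_left]
  have h1 := pol hJ i i x y
  rw [if_pos rfl, real_inner_comm (J i x) (J i y)] at h1
  linarith

theorem nrm (hJ : IsFrame J) (i : Fin m) (x : E ι) : ‖J i x‖ = ‖x‖ := by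
  have h1 := hJ.ortho i i x
  rw [if_pos rfl, real_inner_self_eq_norm_sq, real_inner_self_eq_norm_sq] at h1
  exact (sq_eq_sq₀ (norm_nonneg _) (norm_nonneg _)).1 h1

theorem neg (hJ : IsFrame J) (i : Fin m) (x : E ι) : J i (-x) = -J i x := by
  have h := (hJ.linear i).map_smul (-1) x
  rwa [neg_one_smul, neg_one_smul] at h

/-- The orthonormal family `x`, `J i x`. -/
def fam (J : Fin m → E ι → E ι) (x : E ι) : Option (Fin m) → E ι
  | none => x
  | some i => J i x

theorem fam_on (hJ : IsFrame J) {x : E ι} (hx : ‖x‖ = 1) : Orthonormal ℝ (fam J x) := by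
  rw [orthonormal_iff_ite]
  have hxx : (inner ℝ x x : ℝ) = 1 := by rw [real_inner_self_eq_norm_sq, hx, one_pow]
  rintro (_ | i) (_ | j)
  · simp [fam, hx]
  · simp [fam, hJ.tangent]
  · simp only [fam]
    rw [real_inner_comm, hJ.tangent]
    simp
  · simp only [fam]
    rw [hJ.ortho, hxx]
    simp

end XBAS

theorem iBAS : StBasF := by
  intro ι _ m J hJ
  refine ⟨fun i => ?_, XBAS.skew hJ, XBAS.pol hJ,
    fun i x => ⟨XBAS.sq hJ i x, XBAS.nrm hJ i x, XBAS.neg hJ i x⟩, fun i x hx => ?_,
    fun i x t => ?_, fun x u hxu i t => ?_, fun x v hx => ?_, fun x hx => ?_⟩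
  · exact ((hJ.linear i).mk' (J i)).continuous_of_finiteDimensional
  · exact ⟨hx, by rw [XBAS.nrm hJ, hx], hJ.tangent i x⟩
  · unfold gc gd
    rw [(hJ.linear i).map_add, (hJ.linear i).map_smul, (hJ.linear i).map_smul, XBAS.sq hJ]
    module
  · have ha : inner ℝ (J i u) x = -(inner ℝ (J i x) u : ℝ) := by
      rw [XBAS.skew hJ, real_inner_comm u (J i x)]
    have hb : inner ℝ (J i x) x = (0 : ℝ) := by rw [real_inner_comm, hJ.tangent]
    have hc : inner ℝ (J i u) u = (0 : ℝ) := by rw [real_inner_comm, hJ.tangent]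
    unfold gc gd
    rw [(hJ.linear i).map_add, (hJ.linear i).map_smul, (hJ.linear i).map_smul]
    simp only [inner_add_left, inner_add_right, inner_smul_left, inner_smul_right, ha, hb, hc]
    simp only [conj_trivial]
    have := Real.sin_sq_add_cos_sq t
    linear_combination (inner ℝ (J i x) u : ℝ) * this
  · have h := (XBAS.fam_on hJ hx).sum_inner_products_le (s := Finset.univ.map
      (Function.Embedding.some : Fin m ↪ Option (Fin m))) (x := v)
    rw [Finset.sum_map] at h
    simpa [XBAS.fam] using h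
  · have h := (XBAS.fam_on hJ hx).linearIndependent.fintype_card_le_finrank
    simpa using h

theorem iISO : StIsoF := by
  intro ι _ m J hJ x y hx hy
  have hb : Orthonormal ℝ (EuclideanSpace.basisFun (Option (Fin m)) ℝ).toBasis := by
    rw [OrthonormalBasis.coe_toBasis]
    exact (EuclideanSpace.basisFun (Option (Fin m)) ℝ).orthonormal
  set b := (EuclideanSpace.basisFun (Option (Fin m)) ℝ).toBasis with hbd
  have hA : ∀ z : E ι, ‖z‖ = 1 → ∃ A : EuclideanSpace ℝ (Option (Fin m)) →ₗᵢ[ℝ] E ι,
      ∀ o, A (b o) = XBAS.fam J z o := by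
    intro z hz
    have h1 : Orthonormal ℝ ((b.constr ℝ (XBAS.fam J z)) ∘ b) := by
      have : (b.constr ℝ (XBAS.fam J z)) ∘ b = XBAS.fam J z := by
        funext o
        simp
      rw [this]
      exact XBAS.fam_on hJ hz
    refine ⟨(b.constr ℝ (XBAS.fam J z)).isometryOfOrthonormal hb h1, fun o => ?_⟩
    change (b.constr ℝ (XBAS.fam J z)) (b o) = _
    simp
  obtain ⟨A, hA1⟩ := hA x hx
  obtain ⟨B, hB1⟩ := hA y hy
  set L : (LinearMap.range A.toLinearMap) →ₗᵢ[ℝ] E ι :=
    B.comp A.equivRange.symm.toLinearIsometry with hL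
  have hval : ∀ o, L.extend (XBAS.fam J x o) = XBAS.fam J y o := by
    intro o
    have h1 : XBAS.fam J x o = ((A.equivRange (b o) : LinearMap.range A.toLinearMap) : E ι) := by
      rw [← hA1]
      rfl
    rw [h1, LinearIsometry.extend_apply]
    change B (A.equivRange.symm (A.equivRange (b o))) = _
    rw [LinearIsometryEquiv.symm_apply_apply, hB1]
  exact ⟨L.extend, hval none, fun i => hval (some i)⟩

end Pool.Agent.Work.MP_02f065_gt.FR
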