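import Pool.Agent.Work.MP_02f065_gt.FR.Stmts

/-!
MP_02f065_gt, block FR, item FLO: the means over the circles.
-/

open MeasureTheory Set Filter Topology

noncomputable section

namespace Pool.Agent.Work.MP_02f065_gt.FR

open Pool.Agent.Work.MP_02f065_gt.RPn Pool.Agent.Work.MP_02f065_gt.Cvx

set_option maxHeartbeats 400000

namespace XFLO

/-- exchange of the integrals for a bounded continuous function -/
theorem swapG {α : Type} [TopologicalSpace α] [MeasurableSpace α] [BorelSpace α]
    [SecondCountableTopology α] (μ : Measure α) [IsFiniteMeasure μ] (G : ℝ × α → ℝ)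
    (hG : Continuous G) (C : ℝ) (hC : ∀ p, ‖G p‖ ≤ C) (c d : ℝ) :
    ∫ x, (∫ t in c..d, G (t, x)) ∂μ = ∫ t in c..d, (∫ x, G (t, x) ∂μ) := by
  have hfin : IsFiniteMeasure (volume.restrict (Set.uIoc c d)) := by
    constructor
    rw [Measure.restrict_apply_univ]
    exact isCompact_uIcc.measure_lt_top.trans_le' (measure_mono Set.uIoc_subset_uIcc)
  have h1 : Integrable G ((volume.restrict (Set.uIoc c d)).prod μ) :=
    Integrable.of_bound hG.aestronglyMeasurable C (Eventually.of_forall hC)
  exact (intervalIntegral_integral_swap (f := fun t x => G (t, x)) h1).symm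

variable {ι : Type} [Fintype ι] {m : ℕ}

/-- the norm of a point of a circle -/
theorem norm_circ {J : Fin m → E ι → E ι} (hJ : IsFrame J) (i : Fin m) (x : E ι) (t : ℝ) :
    ‖circ (J i) x t‖ = ‖x‖ := by
  have h1 : (inner ℝ x (J i x) : ℝ) = 0 := hJ.tangent i x
  have h1' : (inner ℝ (J i x) x : ℝ) = 0 := by rw [real_inner_comm]; exact h1
  have h2 : (inner ℝ (J i x) (J i x) : ℝ) = inner ℝ x x := by
    have := hJ.ortho i i x
    rwa [if_pos rfl] at this
  have h3 : ‖circ (J i) x t‖ ^ 2 = ‖x‖ ^ 2 := by
    rw [← real_inner_self_eq_norm_sq, ← real_inner_self_eq_norm_sq]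
    simp only [circ, inner_add_left, inner_add_right, real_inner_smul_left, real_inner_smul_right,
      h1, h1', h2]
    have hs := Real.sin_sq_add_cos_sq t
    linear_combination (inner ℝ x x : ℝ) * hs
  exact (sq_eq_sq₀ (norm_nonneg _) (norm_nonneg _)).1 h3

theorem circ_add {J : Fin m → E ι → E ι} (hJ : IsFrame J) (i : Fin m) (t : ℝ) (x y : E ι) :
    circ (J i) (x + y) t = circ (J i) x t + circ (J i) y t := by
  unfold circ
  rw [(hJ.linear i).map_add, smul_add, smul_add]
  abel

theorem circ_smul {J : Fin m → E ι → E ι} (hJ : IsFrame J) (i : Fin m) (t r : ℝ) (x : E ι) :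
    circ (J i) (r • x) t = r • circ (J i) x t := by
  unfold circ
  rw [(hJ.linear i).map_smul, smul_add, smul_comm r, smul_comm r]

/-- the linear isometry -/
theorem iso {J : Fin m → E ι → E ι} (hJ : IsFrame J) (i : Fin m) (t : ℝ) :
    ∃ T : E ι →ₗᵢ[ℝ] E ι, ∀ x, T x = circ (J i) x t := by
  let L : E ι →ₗ[ℝ] E ι :=
    { toFun := fun x => circ (J i) x t
      map_add' := circ_add hJ i t
      map_smul' := fun r x => circ_smul hJ i t r x }
  exact ⟨⟨L, fun x => norm_circ hJ i x t⟩, fun x => rfl⟩

/-- continuous extension from the sphere -/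
theorem ext {a : E ι → ℝ} (ha : ContinuousOn a (Metric.sphere (0 : E ι) 1)) :
    ∃ b : E ι → ℝ, Continuous b ∧ ∀ x ∈ Metric.sphere (0 : E ι) 1, b x = a x := by
  obtain ⟨g, hg⟩ := ContinuousMap.exists_restrict_eq (Y := ℝ)
    (Metric.isClosed_sphere (x := (0 : E ι)) (ε := 1))
    ⟨(Metric.sphere (0 : E ι) 1).domRestrict a, continuousOn_iff_continuous_domRestrict.1 ha⟩
  refine ⟨g, g.continuous, fun x hx => ?_⟩
  have := DFunLike.congr_fun hg ⟨x, hx⟩
  exact this

/-- restriction of a continuous function of two variables to the sphere, exchanged -/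
theorem contS {V W : Type} [TopologicalSpace V] [TopologicalSpace W] {S : Set V}
    (F : V → ℝ → W) (hF : Continuous (fun p : V × ℝ => F p.1 p.2)) :
    Continuous (fun p : ℝ × S => F (p.2 : V) p.1) :=
  hF.comp ((continuous_subtype_val.comp continuous_snd).prodMk continuous_fst)

end XFLO

open XFLO in
theorem iFLO (hBas : StBasF) (hI : StIso) : StFloF := by
  intro ι _ _ m J hJ i a ha
  obtain ⟨b, hb, hba⟩ := ext ha
  have hJc : Continuous (J i) := (hBas ι m J hJ).1 i
  have hmem : ∀ x ∈ Metric.sphere (0 : E ι) 1, ∀ t, circ (J i) x t ∈ Metric.sphere (0 : E ι) 1 := by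
    intro x hx t
    rw [mem_sphere_zero_iff_norm] at hx ⊢
    rw [norm_circ hJ, hx]
  have hcirc : Continuous (fun p : E ι × ℝ => circ (J i) p.1 p.2) := by
    unfold circ
    exact ((Real.continuous_cos.comp continuous_snd).smul continuous_fst).add
      ((Real.continuous_sin.comp continuous_snd).smul (hJc.comp continuous_fst))
  have hF : Continuous (fun p : E ι × ℝ => b (circ (J i) p.1 p.2)) := hb.comp hcirc
  have hmean : Continuous (circMean (J i) b) := by
    unfold circMean
    refine continuous_const.mul ?_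
    exact intervalIntegral.continuous_parametric_intervalIntegral_of_continuous'
      (f := fun x t => b (circ (J i) x t)) hF _ _
  have heq : ∀ x ∈ Metric.sphere (0 : E ι) 1, circMean (J i) a x = circMean (J i) b x := by
    intro x hx
    unfold circMean
    congr 1
    refine intervalIntegral.integral_congr fun t _ => ?_
    exact (hba _ (hmem x hx t)).symm
  refine ⟨hmean.continuousOn.congr heq, ?_, ?_⟩
  · have hpi : (0 : ℝ) < 2 * Real.pi := by positivity
    have e1 : sInt (circMean (J i) a) = sInt (circMean (J i) b) := by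
      unfold sInt
      refine integral_congr_ae (Eventually.of_forall fun x => ?_)
      exact heq x.1 x.2
    have e2 : sInt a = sInt b := by
      unfold sInt
      refine integral_congr_ae (Eventually.of_forall fun x => ?_)
      exact (hba x.1 x.2).symm
    have e3 : ∀ t, ∫ x : Metric.sphere (0 : E ι) 1, b (circ (J i) x t)
        ∂((volume : Measure (E ι)).toSphere) = sInt b := by
      intro t
      obtain ⟨T, hT⟩ := iso hJ i t
      have h := (hI ι).1 T b hb.continuousOn
      simp only [hT] at h
      exact h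
    rw [e1, e2]
    have hcont : Continuous (fun p : ℝ × Metric.sphere (0 : E ι) 1 =>
        b (circ (J i) (p.2 : E ι) p.1)) :=
      contS (fun x t => b (circ (J i) x t)) hF
    obtain ⟨C, hC⟩ := (isCompact_sphere (0 : E ι) 1).exists_bound_of_continuousOn hb.continuousOn
    have hb' : ∀ p : ℝ × Metric.sphere (0 : E ι) 1, ‖b (circ (J i) (p.2 : E ι) p.1)‖ ≤ C :=
      fun p => hC _ (hmem _ p.2.2 p.1)
    have hsw := swapG ((volume : Measure (E ι)).toSphere)
      (fun p : ℝ × Metric.sphere (0 : E ι) 1 => b (circ (J i) (p.2 : E ι) p.1)) hcont C hb'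
      0 (2 * Real.pi)
    simp only at hsw
    have e4 : ∫ t in (0 : ℝ)..(2 * Real.pi), ∫ x : Metric.sphere (0 : E ι) 1,
        b (circ (J i) (x : E ι) t) ∂((volume : Measure (E ι)).toSphere) =
        ∫ t in (0 : ℝ)..(2 * Real.pi), sInt b :=
      intervalIntegral.integral_congr fun t _ => e3 t
    have e5 : sInt (circMean (J i) b) = (1 / (2 * Real.pi)) *
        ∫ x : Metric.sphere (0 : E ι) 1, (∫ t in (0 : ℝ)..(2 * Real.pi),
          b (circ (J i) (x : E ι) t)) ∂((volume : Measure (E ι)).toSphere) := by
      unfold sInt circMean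
      exact integral_const_mul _ _
    rw [e5, hsw, e4, intervalIntegral.integral_const, smul_eq_mul, sub_zero, ← mul_assoc,
      one_div_mul_cancel hpi.ne', one_mul]
  · intro h0 x hx
    unfold circMean
    refine mul_nonneg (by positivity) ?_
    refine intervalIntegral.integral_nonneg (by positivity) fun t _ => ?_
    refine h0 _ ?_
    rw [norm_circ hJ, hx]

end Pool.Agent.Work.MP_02f065_gt.FR
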