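import Pool.Agent.Work.MP_02f065_gt.FR.Stmts
import Pool.Agent.Work.MP_02f065_gt.Cvx.I_FLO3
import Pool.Agent.Work.MP_02f065_gt.Cvx.I_JEN3

/-!
MP_02f065_gt, block FR, item HOR: the mean of `e` by thickening.
-/

open MeasureTheory Set Filter Topology

noncomputable section

namespace Pool.Agent.Work.MP_02f065_gt.FR

open Pool.Agent.Work.MP_02f065_gt.RPn Pool.Agent.Work.MP_02f065_gt.Cvx

namespace XHOR

/-- the weight -/
def wt {m : ℕ} (ε : ℝ) (s : Fin m → ℝ) : ℝ := ∏ i, max 0 (1 - |s i| / ε)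

theorem wt_cont {m : ℕ} (ε : ℝ) : Continuous (wt (m := m) ε) := by
  unfold wt
  fun_prop

theorem wt_nonneg {m : ℕ} (ε : ℝ) (s : Fin m → ℝ) : 0 ≤ wt ε s :=
  Finset.prod_nonneg fun _ _ => le_max_left _ _

theorem wt_zero {m : ℕ} (ε : ℝ) : wt ε (0 : Fin m → ℝ) = 1 := by
  simp [wt]

theorem wt_sum {m : ℕ} {ε : ℝ} (hε : 0 < ε) (s : Fin m → ℝ) :
    wt ε s * ∑ i, |s i| ≤ wt ε s * (m * ε) := by
  by_cases h : ∀ i, |s i| ≤ ε
  · refine mul_le_mul_of_nonneg_left ?_ (wt_nonneg ε s)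
    calc ∑ i, |s i| ≤ ∑ _i : Fin m, ε := Finset.sum_le_sum fun i _ => h i
      _ = m * ε := by simp
  · push Not at h
    obtain ⟨i, hi⟩ := h
    have h0 : wt ε s = 0 := by
      refine Finset.prod_eq_zero (Finset.mem_univ i) ?_
      refine max_eq_left ?_
      have : 1 < |s i| / ε := by rwa [lt_div_iff₀ hε, one_mul]
      linarith
    rw [h0, zero_mul, zero_mul]

end XHOR

open XHOR in
/-- **the mean of `e`** -/
theorem iHOR (hBas : StBasF) (hStr : StStrF) (hInd : StIndF) (hPos : StPosF) (hLen : StLen5) :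
    StHorF := by
  intro Q hQ Fr m J g e L hm hJ hg hb hSys x v hxv
  let _ := Fr.ms
  have := Fr.prob
  change L / Real.pi ≤ ∫ ω, e (Fr.A ω x) ∂Fr.μ
  have hπ := Real.pi_pos
  obtain ⟨-, -, hgc, hC⟩ := hStr _ m J g hJ hg
  obtain ⟨C, hC0, hCb⟩ := hC e hb
  obtain ⟨b1, -, -, -, -, -, b7, -, -⟩ := hBas _ m J hJ
  have hSq : ContinuousOn (fun z : E (Ix 1 Q) × E (Ix 1 Q) => Real.sqrt (g z.1 z.2 z.2))
      {z | ON z.1 z.2} := Real.continuous_sqrt.comp_continuousOn hgc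
  have hsv : Continuous (fun z : E (Ix 1 Q) × E (Ix 1 Q) =>
      (fun i => (inner ℝ (J i z.1) z.2 : ℝ) : Fin m → ℝ)) := by
    refine continuous_pi fun i => ?_
    exact ((b1 i).comp continuous_fst).inner continuous_snd
  have hec : ContinuousOn (fun z : E (Ix 1 Q) × E (Ix 1 Q) => e z.1) {z | ON z.1 z.2} := by
    refine hb.cont.comp continuousOn_fst ?_
    intro z hz
    simp only [mem_sphere_iff_norm, sub_zero]
    exact hz.1
  refine le_of_forall_pos_le_add fun δ hδ => ?_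
  set ε : ℝ := δ / (C * (m + 1)) with hε
  have hm1 : (0 : ℝ) < m + 1 := by positivity
  have hε0 : 0 < ε := by positivity
  have hCε : C * (m * ε) ≤ δ := by
    have h1 : C * ((m + 1) * ε) = δ := by
      rw [hε]
      field_simp
    rw [← h1]
    refine mul_le_mul_of_nonneg_left ?_ hC0.le
    exact mul_le_mul_of_nonneg_right (by linarith) hε0.le
  have hwc : Continuous (fun z : E (Ix 1 Q) × E (Ix 1 Q) =>
      wt ε (fun i => (inner ℝ (J i z.1) z.2 : ℝ))) := (wt_cont ε).comp hsv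
  have hwcO : ContinuousOn (fun z : E (Ix 1 Q) × E (Ix 1 Q) =>
      wt ε (fun i => (inner ℝ (J i z.1) z.2 : ℝ))) {z | ON z.1 z.2} := hwc.continuousOn
  have hHc : ContinuousOn (fun z : E (Ix 1 Q) × E (Ix 1 Q) =>
      wt ε (fun i => (inner ℝ (J i z.1) z.2 : ℝ)) *
        (Real.sqrt (g z.1 z.2 z.2) - L / Real.pi)) {z | ON z.1 z.2} :=
    hwcO.mul (hSq.sub continuousOn_const)
  have hflo := iFLO3 Q hQ Fr _ 0 hHc (by
    intro y u hyu
    have hcc : Continuous (fun t : ℝ => Real.sqrt (g (gc y u t) (gd y u t) (gd y u t))) := by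
      have h1 : Continuous (fun t : ℝ => (gc y u t, gd y u t)) := by
        unfold gc gd
        fun_prop
      exact hSq.comp_continuous h1 (fun t => XFLO3.ON_gc hyu t)
    have h1 : (fun t : ℝ => wt ε (fun i => (inner ℝ (J i (gc y u t)) (gd y u t) : ℝ)) *
        (Real.sqrt (g (gc y u t) (gd y u t) (gd y u t)) - L / Real.pi)) = fun t =>
        wt ε (fun i => (inner ℝ (J i y) u : ℝ)) *
          (Real.sqrt (g (gc y u t) (gd y u t) (gd y u t)) - L / Real.pi) := by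
      funext t
      simp only [b7 y u hyu]
    change 0 ≤ ∫ t in (0 : ℝ)..(2 * Real.pi),
      wt ε (fun i => (inner ℝ (J i (gc y u t)) (gd y u t) : ℝ)) *
        (Real.sqrt (g (gc y u t) (gd y u t) (gd y u t)) - L / Real.pi)
    rw [h1, intervalIntegral.integral_const_mul]
    refine mul_nonneg (wt_nonneg _ _) ?_
    rw [intervalIntegral.integral_sub (hcc.intervalIntegrable _ _)
      (continuous_const.intervalIntegrable _ _), intervalIntegral.integral_const]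
    have h2 := hLen _ g L hg hSys hgc y u hyu
    have h3 : (2 * Real.pi - 0) • (L / Real.pi) = 2 * L := by
      rw [smul_eq_mul]
      field_simp
      ring
    rw [h3]
    linarith) x v hxv
  have hflo' : 0 ≤ 2 * Real.pi * ∫ ω, wt ε (fun i =>
      (inner ℝ (J i (Fr.A ω x)) (Fr.A ω v) : ℝ)) *
        (Real.sqrt (g (Fr.A ω x) (Fr.A ω v) (Fr.A ω v)) - L / Real.pi) ∂Fr.μ := hflo
  have hint : 0 ≤ ∫ ω, wt ε (fun i => (inner ℝ (J i (Fr.A ω x)) (Fr.A ω v) : ℝ)) *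
        (Real.sqrt (g (Fr.A ω x) (Fr.A ω v) (Fr.A ω v)) - L / Real.pi) ∂Fr.μ := by
    by_contra hneg
    push Not at hneg
    have : 2 * Real.pi * ∫ ω, wt ε (fun i => (inner ℝ (J i (Fr.A ω x)) (Fr.A ω v) : ℝ)) *
        (Real.sqrt (g (Fr.A ω x) (Fr.A ω v) (Fr.A ω v)) - L / Real.pi) ∂Fr.μ < 0 :=
      mul_neg_of_pos_of_neg (by positivity) hneg
    linarith
  have i1 : Integrable (fun ω => wt ε (fun i => (inner ℝ (J i (Fr.A ω x)) (Fr.A ω v) : ℝ)) *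
        (Real.sqrt (g (Fr.A ω x) (Fr.A ω v) (Fr.A ω v)) - L / Real.pi)) Fr.μ :=
    XJEN3.intg Fr hHc hxv
  have i2 : Integrable (fun ω => wt ε (fun i => (inner ℝ (J i (Fr.A ω x)) (Fr.A ω v) : ℝ)) *
        e (Fr.A ω x)) Fr.μ := XJEN3.intg Fr (hwcO.mul hec) hxv
  have i3 : Integrable (fun ω => wt ε (fun i =>
      (inner ℝ (J i (Fr.A ω x)) (Fr.A ω v) : ℝ))) Fr.μ :=
    XJEN3.intg Fr hwcO hxv
  set W : ℝ := ∫ ω, wt ε (fun i => (inner ℝ (J i (Fr.A ω x)) (Fr.A ω v) : ℝ)) ∂Fr.μ with hW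
  have hW0 : 0 < W := hPos Q hQ Fr m J (wt ε) hm hJ (wt_cont ε) (wt_nonneg ε)
    (by rw [wt_zero]; exact one_pos) x v hxv
  have hI : ∫ ω, wt ε (fun i => (inner ℝ (J i (Fr.A ω x)) (Fr.A ω v) : ℝ)) * e (Fr.A ω x) ∂Fr.μ =
      W * ∫ ω, e (Fr.A ω x) ∂Fr.μ :=
    hInd Q hQ Fr m J (wt ε) e hJ (wt_cont ε) hb.cont x v hxv
  have hle : ∫ ω, wt ε (fun i => (inner ℝ (J i (Fr.A ω x)) (Fr.A ω v) : ℝ)) *
        (Real.sqrt (g (Fr.A ω x) (Fr.A ω v) (Fr.A ω v)) - L / Real.pi) ∂Fr.μ ≤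
      ∫ ω, (wt ε (fun i => (inner ℝ (J i (Fr.A ω x)) (Fr.A ω v) : ℝ)) * e (Fr.A ω x) +
        wt ε (fun i => (inner ℝ (J i (Fr.A ω x)) (Fr.A ω v) : ℝ)) * (δ - L / Real.pi)) ∂Fr.μ := by
    refine integral_mono i1 (i2.add (i3.mul_const _)) fun ω => ?_
    have hon := XJEN3.ON_map (Fr.A ω) hxv
    have h1 := hCb _ _ hon
    have h2 := wt_nonneg ε (fun i => (inner ℝ (J i (Fr.A ω x)) (Fr.A ω v) : ℝ))
    have h3 := wt_sum hε0 (fun i => (inner ℝ (J i (Fr.A ω x)) (Fr.A ω v) : ℝ))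
    have h4 := mul_le_mul_of_nonneg_left h1 h2
    have h5 := mul_le_mul_of_nonneg_left h3 hC0.le
    have h6 := mul_le_mul_of_nonneg_left hCε h2
    show wt ε (fun i => (inner ℝ (J i (Fr.A ω x)) (Fr.A ω v) : ℝ)) *
        (Real.sqrt (g (Fr.A ω x) (Fr.A ω v) (Fr.A ω v)) - L / Real.pi) ≤
      wt ε (fun i => (inner ℝ (J i (Fr.A ω x)) (Fr.A ω v) : ℝ)) * e (Fr.A ω x) +
        wt ε (fun i => (inner ℝ (J i (Fr.A ω x)) (Fr.A ω v) : ℝ)) * (δ - L / Real.pi)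
    nlinarith [h4, h5, h6]
  rw [integral_add i2 (i3.mul_const _), integral_mul_const, hI] at hle
  have hfin : 0 ≤ W * ((∫ ω, e (Fr.A ω x) ∂Fr.μ) + δ - L / Real.pi) := by
    have h1 : W * ((∫ ω, e (Fr.A ω x) ∂Fr.μ) + δ - L / Real.pi) =
      W * (∫ ω, e (Fr.A ω x) ∂Fr.μ) + W * (δ - L / Real.pi) := by ring
    rw [h1]
    exact hint.trans hle
  have := nonneg_of_mul_nonneg_right hfin hW0
  linarith

end Pool.Agent.Work.MP_02f065_gt.FR
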