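import Pool.Agent.Work.MP_02f065_gt.FR.Stmts

/-!
MP_02f065_gt, block FR, items IND and POS: for a random orthonormal pair `(x, u)` the numbers
`<J i x, u>` are independent of `x`.
-/

open MeasureTheory Set Filter Topology

noncomputable section

namespace Pool.Agent.Work.MP_02f065_gt.FR

open Pool.Agent.Work.MP_02f065_gt.RPn Pool.Agent.Work.MP_02f065_gt.Cvx

namespace XIND

theorem finrankE (Q : ℕ) : Module.finrank ℝ (E (Ix 1 Q)) = Q + 1 := by
  rw [finrank_euclideanSpace]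
  simp [Fintype.card_sum, add_comm]

theorem ne0 {ι : Type} [Fintype ι] {x : E ι} (hx : ‖x‖ = 1) : x ≠ 0 := by
  intro h
  rw [h, norm_zero] at hx
  exact zero_ne_one hx

/-- A linear isometry onto the tangent space. -/
theorem exists_tan {Q : ℕ} (x : E (Ix 1 Q)) (hx : ‖x‖ = 1) :
    ∃ T : E (Fin Q) →ₗᵢ[ℝ] E (Ix 1 Q), IsTan x T := by
  have hfact : Fact (Module.finrank ℝ (E (Ix 1 Q)) = Q + 1) := ⟨finrankE Q⟩
  have hfo : Module.finrank ℝ (ℝ ∙ x)ᗮ = Q :=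
    Submodule.finrank_orthogonal_span_singleton (ne0 hx)
  let b : OrthonormalBasis (Fin Q) ℝ (ℝ ∙ x)ᗮ :=
    (stdOrthonormalBasis ℝ (ℝ ∙ x)ᗮ).reindex (finCongr hfo)
  refine ⟨(ℝ ∙ x)ᗮ.subtypeₗᵢ.comp b.repr.symm.toLinearIsometry, ?_⟩
  intro w
  have h1 : ((b.repr.symm w : (ℝ ∙ x)ᗮ) : E (Ix 1 Q)) ∈ (ℝ ∙ x)ᗮ := (b.repr.symm w).2
  exact (Submodule.mem_orthogonal_singleton_iff_inner_right).1 h1

/-- The range of a tangent isometry. -/
theorem range_tan {Q : ℕ} {x : E (Ix 1 Q)} (hx : ‖x‖ = 1) {T : E (Fin Q) →ₗᵢ[ℝ] E (Ix 1 Q)}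
    (hT : IsTan x T) : LinearMap.range T.toLinearMap = (ℝ ∙ x)ᗮ := by
  have hfact : Fact (Module.finrank ℝ (E (Ix 1 Q)) = Q + 1) := ⟨finrankE Q⟩
  have hfo : Module.finrank ℝ (ℝ ∙ x)ᗮ = Q :=
    Submodule.finrank_orthogonal_span_singleton (ne0 hx)
  apply Submodule.eq_of_le_of_finrank_eq
  · rintro _ ⟨w, rfl⟩
    exact (Submodule.mem_orthogonal_singleton_iff_inner_right).2 (hT w)
  · rw [hfo, LinearMap.finrank_range_of_inj T.injective]
    simp

/-- Two tangent isometries at the same point. -/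
theorem two_tan {Q : ℕ} {x : E (Ix 1 Q)} (hx : ‖x‖ = 1) {T T' : E (Fin Q) →ₗᵢ[ℝ] E (Ix 1 Q)}
    (hT : IsTan x T) (hT' : IsTan x T') :
    ∃ S : E (Fin Q) →ₗᵢ[ℝ] E (Fin Q), ∀ w, T' (S w) = T w := by
  have hr : ∀ w, ∃ z, T' z = T w := by
    intro w
    have h1 : T w ∈ LinearMap.range T'.toLinearMap := by
      rw [range_tan hx hT', ← range_tan hx hT]
      exact ⟨w, rfl⟩
    obtain ⟨z, hz⟩ := h1
    exact ⟨z, hz⟩
  choose S hS using hr
  have hadd : ∀ w w', S (w + w') = S w + S w' := by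
    intro w w'
    apply T'.injective
    rw [hS, map_add, map_add, hS, hS]
  have hsm : ∀ (c : ℝ) w, S (c • w) = c • S w := by
    intro c w
    apply T'.injective
    rw [hS, map_smul, map_smul, hS]
  refine ⟨⟨⟨⟨S, hadd⟩, hsm⟩, ?_⟩, hS⟩
  intro w
  change ‖S w‖ = ‖w‖
  rw [← T'.norm_map, hS, T.norm_map]

theorem smean_one_pos {Q : ℕ} (hQ : 1 ≤ Q) : 0 < smean (fun _ : E (Fin Q) => (1 : ℝ)) := by
  have : Nonempty (Fin Q) := ⟨⟨0, hQ⟩⟩
  have : Nontrivial (E (Fin Q)) := by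
    refine ⟨⟨EuclideanSpace.single ⟨0, hQ⟩ 1, 0, ?_⟩⟩
    intro h
    have := congrArg (fun z : E (Fin Q) => ‖z‖) h
    simp at this
  unfold smean
  rw [integral_const, smul_eq_mul, mul_one]
  rw [Measure.real, ENNReal.toReal_pos_iff]
  constructor
  · rw [Measure.toSphere_apply_univ]
    refine ENNReal.mul_pos ?_ ?_
    · simp
      omega
    · exact (Metric.measure_ball_pos volume (0 : E (Fin Q)) one_pos).ne'
  · exact measure_lt_top _ _

section

variable {Q m : ℕ} {J : Fin m → E (Ix 1 Q) → E (Ix 1 Q)} {w : (Fin m → ℝ) → ℝ}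

/-- The mean of the weight over the unit tangent vectors. -/
def wm (J : Fin m → E (Ix 1 Q) → E (Ix 1 Q)) (w : (Fin m → ℝ) → ℝ) (y : E (Ix 1 Q))
    (T : E (Fin Q) →ₗᵢ[ℝ] E (Ix 1 Q)) : ℝ :=
  smean (fun z => w (fun i => inner ℝ (J i y) (T z)))

theorem cont_w (hw : Continuous w) (y : E (Ix 1 Q)) (T : E (Fin Q) →ₗᵢ[ℝ] E (Ix 1 Q)) :
    Continuous (fun z => w (fun i => inner ℝ (J i y) (T z))) := by
  refine hw.comp (continuous_pi fun i => ?_)
  exact continuous_const.inner T.continuous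

/-- It does not depend on the point. -/
theorem wm_eq (hIso : StIsoF) (hI : StIso) (hQ : 2 ≤ Q) (hJ : IsFrame J) (hw : Continuous w)
    {y y' : E (Ix 1 Q)} {T T' : E (Fin Q) →ₗᵢ[ℝ] E (Ix 1 Q)} (hy : ‖y‖ = 1) (hy' : ‖y'‖ = 1)
    (hT : IsTan y T) (hT' : IsTan y' T') : wm J w y T = wm J w y' T' := by
  have : Nonempty (Fin Q) := ⟨⟨0, by omega⟩⟩
  obtain ⟨R, hR, hRJ⟩ := hIso (Ix 1 Q) m J hJ y y' hy hy'
  have hT2 : IsTan y' (R.comp T) := by
    intro z
    have h1 : inner ℝ (R y) (R (T z)) = inner ℝ y (T z) := R.inner_map_map _ _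
    rw [hR] at h1
    exact h1.trans (hT z)
  obtain ⟨S, hS⟩ := two_tan hy' hT2 hT'
  have e1 : (fun z : E (Fin Q) => w (fun i => inner ℝ (J i y) (T z))) =
      fun z => w (fun i => inner ℝ (J i y') (T' (S z))) := by
    funext z
    congr 1
    funext i
    have h1 : inner ℝ (R (J i y)) (R (T z)) = inner ℝ (J i y) (T z) := R.inner_map_map _ _
    rw [← h1, hRJ, hS]
    rfl
  unfold wm
  rw [e1]
  exact (hI (Fin Q)).1 S (fun z => w (fun i => inner ℝ (J i y') (T' z)))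
    (cont_w hw y' T').continuousOn

/-- Continuity on the orthonormal pairs. -/
theorem contH (hBas : StBasF) (hJ : IsFrame J) (hw : Continuous w) {e : E (Ix 1 Q) → ℝ}
    (he : ContinuousOn e (Metric.sphere (0 : E (Ix 1 Q)) 1)) :
    ContinuousOn (fun z : E (Ix 1 Q) × E (Ix 1 Q) => w (fun i => inner ℝ (J i z.1) z.2) * e z.1)
      {z | ON z.1 z.2} := by
  have hc := (hBas (Ix 1 Q) m J hJ).1
  refine ContinuousOn.mul ?_ ?_
  · refine Continuous.continuousOn (hw.comp (continuous_pi fun i => ?_))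
    exact ((hc i).comp continuous_fst).inner continuous_snd
  · refine he.comp continuous_fst.continuousOn ?_
    intro z hz
    exact mem_sphere_zero_iff_norm.2 hz.1

/-- The integral of the product. -/
theorem key (hBas : StBasF) (hIso : StIsoF) (hI : StIso) (hDis : StDis6) (hQ : 2 ≤ Q)
    (Fr : Frames (Ix 1 Q)) (hJ : IsFrame J) (hw : Continuous w) {e : E (Ix 1 Q) → ℝ}
    (he : ContinuousOn e (Metric.sphere (0 : E (Ix 1 Q)) 1)) {x v y : E (Ix 1 Q)} (hxv : ON x v)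
    {T : E (Fin Q) →ₗᵢ[ℝ] E (Ix 1 Q)} (hy : ‖y‖ = 1) (hT : IsTan y T) :
    smean (fun _ : E (Fin Q) => (1 : ℝ)) *
      (letI := Fr.ms
      ∫ ω, w (fun i => inner ℝ (J i (Fr.A ω x)) (Fr.A ω v)) * e (Fr.A ω x) ∂Fr.μ) =
    wm J w y T * (letI := Fr.ms
      ∫ ω, e (Fr.A ω x) ∂Fr.μ) := by
  let _ := Fr.ms
  obtain ⟨T₀, hT₀⟩ := exists_tan x hxv.1
  have h1 := hDis Q hQ Fr (fun z => w (fun i => inner ℝ (J i z.1) z.2) * e z.1)
    (contH hBas hJ hw he) x v T₀ hxv hT₀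
  refine h1.trans ?_
  change ∫ ω, smean (fun z => w (fun i => inner ℝ (J i (Fr.A ω x)) (Fr.A ω (T₀ z))) *
    e (Fr.A ω x)) ∂Fr.μ = wm J w y T * ∫ ω, e (Fr.A ω x) ∂Fr.μ
  rw [← integral_const_mul]
  congr 1
  funext ω
  have hn : ‖Fr.A ω x‖ = 1 := by rw [LinearIsometry.norm_map, hxv.1]
  have ht : IsTan (Fr.A ω x) ((Fr.A ω).comp T₀) := by
    intro z
    have h2 : inner ℝ (Fr.A ω x) (Fr.A ω (T₀ z)) = inner ℝ x (T₀ z) :=
      (Fr.A ω).inner_map_map _ _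
    exact h2.trans (hT₀ z)
  have h3 := wm_eq hIso hI hQ hJ hw hn hy ht hT
  rw [← h3]
  unfold wm smean
  rw [← integral_mul_const]
  rfl

end

end XIND

theorem iIND (hBas : StBasF) (hIso : StIsoF) (hI : StIso) (hDis : StDis6) : StIndF := by
  intro Q hQ Fr m J w e hJ hw he x v hxv
  let _ := Fr.ms
  have := Fr.prob
  obtain ⟨T, hT⟩ := XIND.exists_tan x hxv.1
  have h1 := XIND.key hBas hIso hI hDis hQ Fr hJ hw he hxv hxv.1 hT
  have h2 := XIND.key hBas hIso hI hDis hQ Fr hJ hw (e := fun _ => 1) continuousOn_const hxv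
    hxv.1 hT
  have hp := XIND.smean_one_pos (Q := Q) (by omega)
  simp only [mul_one, integral_const, probReal_univ, smul_eq_mul] at h2
  have h3 : smean (fun _ : E (Fin Q) => (1 : ℝ)) *
      (∫ ω, w (fun i => inner ℝ (J i (Fr.A ω x)) (Fr.A ω v)) * e (Fr.A ω x) ∂Fr.μ) =
      smean (fun _ : E (Fin Q) => (1 : ℝ)) *
      ((∫ ω, w (fun i => inner ℝ (J i (Fr.A ω x)) (Fr.A ω v)) ∂Fr.μ) *
        ∫ ω, e (Fr.A ω x) ∂Fr.μ) := by
    rw [← mul_assoc]
    exact h1.trans (by rw [← h2])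
  exact mul_left_cancel₀ hp.ne' h3

theorem iPOS (hBas : StBasF) (hIso : StIsoF) (hI : StIso) (hDis : StDis6) : StPosF := by
  intro Q hQ Fr m J w hm hJ hw hw0 hw1 x v hxv
  let _ := Fr.ms
  have := Fr.prob
  obtain ⟨T, hT⟩ := XIND.exists_tan x hxv.1
  have h2 := XIND.key hBas hIso hI hDis hQ Fr hJ hw (e := fun _ => 1) continuousOn_const hxv
    hxv.1 hT
  have hp := XIND.smean_one_pos (Q := Q) (by omega)
  simp only [mul_one, integral_const, probReal_univ, smul_eq_mul] at h2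
  suffices hpos : 0 < XIND.wm J w x T by
    rw [← h2] at hpos
    exact pos_of_mul_pos_right hpos hp.le
  -- a tangent vector orthogonal to all `J i x`
  have hdim : ∃ z : E (Fin Q), ‖z‖ = 1 ∧ ∀ i, inner ℝ (J i x) (T z) = 0 := by
    set φ : E (Fin Q) →ₗ[ℝ] (Fin m → ℝ) := LinearMap.pi fun i =>
      (innerSL ℝ (J i x) : E (Ix 1 Q) →L[ℝ] ℝ).toLinearMap ∘ₗ T.toLinearMap with hφ
    have hker : LinearMap.ker φ ≠ ⊥ := by
      apply LinearMap.ker_ne_bot_of_finrank_lt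
      simpa using hm
    obtain ⟨z, hz, hz0⟩ := Submodule.exists_mem_ne_zero_of_ne_bot hker
    have hzn : ‖z‖ ≠ 0 := norm_ne_zero_iff.2 hz0
    refine ⟨‖z‖⁻¹ • z, ?_, fun i => ?_⟩
    · rw [norm_smul, norm_inv, norm_norm]
      exact inv_mul_cancel₀ hzn
    · have h1 : φ z = 0 := LinearMap.mem_ker.1 hz
      have h3 : inner ℝ (J i x) (T z) = 0 := congrFun h1 i
      rw [map_smul, inner_smul_right, h3, mul_zero]
  obtain ⟨z, hz, hz2⟩ := hdim
  have hc := XIND.cont_w (J := J) hw x T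
  unfold XIND.wm smean
  have hc2 : Continuous (fun z : Metric.sphere (0 : E (Fin Q)) 1 =>
      w (fun i => inner ℝ (J i x) (T (z : E (Fin Q))))) := hc.comp continuous_subtype_val
  refine (hc2.integral_pos_of_hasCompactSupport_nonneg_nonzero
    (HasCompactSupport.of_compactSpace _) (fun _ => hw0 _)
    (x := ⟨z, mem_sphere_zero_iff_norm.2 hz⟩) ?_)
  have : (fun i => inner ℝ (J i x) (T z)) = (0 : Fin m → ℝ) := funext hz2
  change w (fun i => inner ℝ (J i x) (T z)) ≠ 0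
  rw [this]
  exact hw1.ne'

end Pool.Agent.Work.MP_02f065_gt.FR
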