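import Pool.Agent.Work.MP_02f065_gt.FR.Stmts

/-!
MP_02f065_gt, block FR: the theorem from the items.
-/

open MeasureTheory Set Filter Topology

noncomputable section

namespace Pool.Agent.Work.MP_02f065_gt.FR

open Pool.Agent.Work.MP_02f065_gt.RPn Pool.Agent.Work.MP_02f065_gt.Cvx

namespace XMAIN

lemma int_one_pos (Q : ℕ) : 0 < sInt (ι := Ix 1 Q) (fun _ => 1) := by
  have : Nonempty (Ix 1 Q) := ⟨Sum.inl 0⟩
  have : Nontrivial (E (Ix 1 Q)) := by
    refine ⟨⟨EuclideanSpace.single (Sum.inl 0) 1, 0, ?_⟩⟩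
    intro h
    have := congrArg (fun z : E (Ix 1 Q) => ‖z‖) h
    simp at this
  unfold sInt
  rw [integral_const, smul_eq_mul, mul_one]
  rw [Measure.real, ENNReal.toReal_pos_iff]
  constructor
  · rw [Measure.toSphere_apply_univ]
    refine ENNReal.mul_pos ?_ ?_
    · simp
    · exact (Metric.measure_ball_pos volume (0 : E (Ix 1 Q)) one_pos).ne'
  · exact measure_lt_top _ _

lemma isNorm_norm (ι : Type) [Fintype ι] : IsNorm (fun x : E ι => ‖x‖) where
  tri x y := norm_add_le x y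
  hom r x := by
    rw [norm_smul, Real.norm_eq_abs]
  pos x hx := norm_pos_iff.2 hx
  diff := fun x hx => (contDiffAt_norm ℝ hx).contDiffWithinAt

lemma inside_norm (ι : Type) [Fintype ι] : Inside 0 (fun x : E ι => ‖x‖) := by
  intro x hx
  change 0 < ‖x‖ ^ 2 + 0
  rw [hx]
  norm_num

end XMAIN

theorem iMAIN (hStr : StStrF) (hCir : StCirF) (hHor : StHorF) (hAdm : StAdmF) (hFr : StFr)
    (hA : StAvg) (hV1 : StVol) (h6 : claimA6) : StMainF := by
  intro Q hQ m J g e hJ hg he hadm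
  have hcard : Fintype.card (Ix 1 Q) = Q + 1 := by
    simp [Fintype.card_sum, add_comm]
  have : Nontrivial (Ix 1 Q) :=
    ⟨⟨Sum.inl 0, Sum.inr ⟨0, by omega⟩, by simp⟩⟩
  obtain ⟨L, hL, hS, γ, hγ⟩ := h6 (Ix 1 Q) g hg
  refine ⟨γ, L, hγ, ?_⟩
  obtain ⟨-, hv2, -, -⟩ := hV1 (Ix 1 Q) (fun x => ‖x‖) 0 (XMAIN.isNorm_norm _)
    (XMAIN.inside_norm _) (by rw [hcard]; omega)
  obtain ⟨Fr⟩ := hFr Q hQ
  let x₀ : E (Ix 1 Q) := EuclideanSpace.single (Sum.inl 0) 1
  let v₀ : E (Ix 1 Q) := EuclideanSpace.single (Sum.inr ⟨0, by omega⟩) 1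
  have hx₀ : ‖x₀‖ = 1 := by simp [x₀]
  have hv₀ : ‖v₀‖ = 1 := by simp [v₀]
  have hxv : ON x₀ v₀ := by
    refine ⟨hx₀, hv₀, ?_⟩
    simp [x₀, v₀, EuclideanSpace.inner_single_left]
  have hpos := XMAIN.int_one_pos Q
  obtain ⟨hs1, hs2, -, -⟩ := hStr (Ix 1 Q) m J g hJ hg
  have hlam : 0 < L / Real.pi := div_pos hL Real.pi_pos
  have hcir : ∀ i (x : E (Ix 1 Q)), ‖x‖ = 1 →
      L / Real.pi ≤ circMean (J i) (stretch g J i) x := fun i x hx =>
    hCir (Ix 1 Q) m J g L hJ hg hS i x hx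
  have hhor : m + 1 < Fintype.card (Ix 1 Q) →
      L / Real.pi * sInt (ι := Ix 1 Q) (fun _ => 1) ≤ sInt e := by
    intro hm
    have hm' : m < Q := by omega
    have h1 := hHor Q hQ Fr m J g e L hm' hJ hg he hS x₀ v₀ hxv
    have h2 := hA Q hQ Fr e he.cont x₀ hx₀
    have h3 : sInt e = sInt (ι := Ix 1 Q) (fun _ => 1) *
        (letI := Fr.ms
        ∫ ω, e (Fr.A ω x₀) ∂Fr.μ) := h2.symm
    rw [h3, mul_comm (L / Real.pi)]
    exact mul_le_mul_of_nonneg_left h1 hpos.le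
  obtain ⟨-, -, hfin⟩ := hAdm (Ix 1 Q) m J (stretch g J) e (L / Real.pi) hJ hlam hs1 he.cont
    (fun i x hx => (hs2 i x hx).le) (fun x hx => (he.pos x hx).le) hcir hhor (volDensity g) Q hadm
  have hround : vol (RPn.round : RPn.Field (Ix 1 Q)) =
      (1 / 2) * sInt (ι := Ix 1 Q) (fun _ => 1) := by
    unfold vol sInt
    congr 1
    refine integral_congr_ae (Eventually.of_forall fun y => ?_)
    exact hv2 y (by simp)
  have hvol : vol g = (1 / 2) * sInt (volDensity g) := rfl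
  rw [hround, hvol, le_div_iff₀ (by positivity)]
  nlinarith [hfin]

end Pool.Agent.Work.MP_02f065_gt.FR
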