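import Pool.Agent.Work.MP_02f065_gt.FR.Stmts

/-!
MP_02f065_gt, block FR, item MET: the diagonal metrics.
-/

open MeasureTheory Set Filter Topology

noncomputable section

namespace Pool.Agent.Work.MP_02f065_gt.FR

open Pool.Agent.Work.MP_02f065_gt.RPn Pool.Agent.Work.MP_02f065_gt.Cvx

theorem iMET (hBas : StBasF) : StMetF := by
  intro ι _ m J f e hJ hf he
  obtain ⟨hc, -, -, hsq, -, -, -, hbes, -⟩ := hBas ι m J hJ
  have hval : ∀ (x v : E ι), frameMetric J f e x v v = ∑ i, f i x ^ 2 * (inner ℝ (J i x) v) ^ 2 +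
      e x ^ 2 * (‖v‖ ^ 2 - ∑ i, (inner ℝ (J i x) v) ^ 2) := by
    intro x v
    unfold frameMetric
    rw [real_inner_self_eq_norm_sq]
    simp only [sq]
  refine ⟨⟨?_, ?_, ?_, ?_, ?_, ?_⟩, ?_, ⟨he.cont, he.pos, ?_⟩⟩
  · intro x v v' w
    unfold frameMetric
    simp only [inner_add_right, inner_add_left, add_mul, mul_add, Finset.sum_add_distrib]
    ring
  · intro x v w r
    unfold frameMetric
    simp only [inner_smul_right, real_inner_smul_left]
    have e1 : ∀ i, r * inner ℝ (J i x) v * (inner ℝ (J i x) w : ℝ) =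
        r * (inner ℝ (J i x) v * inner ℝ (J i x) w) := fun i => by ring
    have e2 : ∀ i, f i x ^ 2 * (r * (inner ℝ (J i x) v * inner ℝ (J i x) w : ℝ)) =
        r * (f i x ^ 2 * (inner ℝ (J i x) v * inner ℝ (J i x) w)) := fun i => by ring
    simp only [e1, e2, ← Finset.mul_sum]
    ring
  · intro x v w
    unfold frameMetric
    simp only [mul_comm (inner ℝ (J _ x) v : ℝ), real_inner_comm v w]
  · intro v w
    unfold frameMetric
    refine ContinuousOn.add ?_ ?_
    · refine continuousOn_finsetSum _ fun i _ => ?_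
      refine ((hf i).cont.pow 2).mul (Continuous.continuousOn ?_)
      exact ((hc i).inner continuous_const).mul ((hc i).inner continuous_const)
    · refine (he.cont.pow 2).mul (Continuous.continuousOn ?_)
      refine continuous_const.sub (continuous_finsetSum _ fun i _ => ?_)
      exact ((hc i).inner continuous_const).mul ((hc i).inner continuous_const)
  · intro x v hx hxv hv
    rw [hval]
    have h1 := hbes x v hx
    have hn : 0 < ‖v‖ ^ 2 := by
      have := norm_pos_iff.2 hv
      positivity
    have he0 : 0 < e x ^ 2 := by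
      have := he.pos x hx
      positivity
    have h2 : 0 ≤ ∑ i, f i x ^ 2 * (inner ℝ (J i x) v : ℝ) ^ 2 :=
      Finset.sum_nonneg fun i _ => by positivity
    rcases h1.eq_or_lt with h | h
    · -- `v` is in the span
      rw [h, sub_self, mul_zero, add_zero]
      have h3 : ∃ i, 0 < (inner ℝ (J i x) v : ℝ) ^ 2 := by
        by_contra hcon
        push Not at hcon
        have h4 : ∑ i, (inner ℝ (J i x) v : ℝ) ^ 2 ≤ 0 := Finset.sum_nonpos fun i _ => hcon i
        linarith
      obtain ⟨i, hi⟩ := h3
      refine Finset.sum_pos' (fun i _ => by positivity) ⟨i, Finset.mem_univ i, ?_⟩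
      have := (hf i).pos x hx
      positivity
    · have h3 : 0 < e x ^ 2 * (‖v‖ ^ 2 - ∑ i, (inner ℝ (J i x) v : ℝ) ^ 2) :=
        mul_pos he0 (by linarith)
      linarith
  · intro x v w hx _ _
    unfold frameMetric
    simp only [(hsq _ x).2.2, inner_neg_left, neg_mul_neg, he.even x hx, (hf _).even x hx]
  · intro i x hx
    have hxx : (inner ℝ x x : ℝ) = 1 := by rw [real_inner_self_eq_norm_sq, hx, one_pow]
    unfold stretch
    have h1 : frameMetric J f e x (J i x) (J i x) = f i x ^ 2 := by
      rw [hval]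
      have h2 : ∀ j, (inner ℝ (J j x) (J i x) : ℝ) ^ 2 = if j = i then 1 else 0 := by
        intro j
        rw [hJ.ortho, hxx]
        split_ifs <;> norm_num
      simp only [h2]
      rw [(hsq i x).2.1, hx]
      simp
    rw [h1]
    exact Real.sqrt_sq ((hf i).pos x hx).le
  · intro x v hx hxv hv
    unfold frameMetric
    simp only [hv, mul_zero, Finset.sum_const_zero, zero_add, sub_zero, le_refl]

end Pool.Agent.Work.MP_02f065_gt.FR
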