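import Pool.Agent.Work.MP_02f065_gt.FR.Defs
import Pool.Agent.Work.MP_02f065_gt.Cvx.Stmts6

/-!
MP_02f065_gt, block FR: statements of the items. `ON x u`: orthonormal pair; `gc x u t`, `gd x u t`:
the point `cos t x + sin t u` and its derivative; `Sys g L`: all curves from `x` to `-x` have length
at least `L`; `Frames`: random isometries (all in Cvx/Stmts.lean). `circ K x t = gc x (K x) t`.
-/

open MeasureTheory Set Filter Topology

noncomputable section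

namespace Pool.Agent.Work.MP_02f065_gt.FR

open Pool.Agent.Work.MP_02f065_gt.RPn Pool.Agent.Work.MP_02f065_gt.Cvx

/-- [Bas] algebra of a frame. `J i` is linear (continuous, finite dimension). Polarise
`<x, J i x> = 0` and `<J i x, J j x> = δ <x, x>`. For the circle: `J i (J i x) = -x`. For an
orthonormal pair: `<J i (c x + s u), -s x + c u> = (c^2 + s^2) <J i x, u>`. Last: the `J i x` and `x`
are orthonormal, so Bessel, and their number is at most the dimension. -/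
def StBasF : Prop := ∀ (ι : Type) [Fintype ι] (m : ℕ) (J : Fin m → E ι → E ι), IsFrame J →
  (∀ i, Continuous (J i)) ∧
  (∀ i (x y : E ι), inner ℝ (J i x) y = -(inner ℝ x (J i y) : ℝ)) ∧
  (∀ i j (x y : E ι), inner ℝ (J i x) (J j y) + inner ℝ (J i y) (J j x) =
    if i = j then 2 * (inner ℝ x y : ℝ) else 0) ∧
  (∀ i (x : E ι), J i (J i x) = -x ∧ ‖J i x‖ = ‖x‖ ∧ J i (-x) = -J i x) ∧
  (∀ i (x : E ι), ‖x‖ = 1 → ON x (J i x)) ∧
  (∀ i (x : E ι) (t : ℝ), J i (gc x (J i x) t) = gd x (J i x) t) ∧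
  (∀ (x u : E ι), ON x u → ∀ i t, (inner ℝ (J i (gc x u t)) (gd x u t) : ℝ) = inner ℝ (J i x) u) ∧
  (∀ (x v : E ι), ‖x‖ = 1 → ∑ i, (inner ℝ (J i x) v : ℝ) ^ 2 ≤ ‖v‖ ^ 2) ∧
  (∀ x : E ι, ‖x‖ = 1 → m + 1 ≤ Fintype.card ι)

/-- [Iso] two points: a linear isometry which maps `x` to `y` and `J i x` to `J i y`.  (Extend the
isometry between the spans: `LinearIsometry.extend`.) -/
def StIsoF : Prop := ∀ (ι : Type) [Fintype ι] (m : ℕ) (J : Fin m → E ι → E ι), IsFrame J →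
  ∀ x y : E ι, ‖x‖ = 1 → ‖y‖ = 1 → ∃ T : E ι →ₗᵢ[ℝ] E ι, T x = y ∧ ∀ i, T (J i x) = J i y

/-- [Str] (hBas, claimA1) the `g`-lengths: `stretch` is continuous and positive; the speed of a
unit tangent vector `u = ∑ s_i J i x + h`, `|h| ≤ 1`, is at most `∑ |s_i| f_i + e` (triangle
inequality for `g x`), and `f_i ≤ C` by compactness. -/
def StStrF : Prop := ∀ (ι : Type) [Fintype ι] (m : ℕ) (J : Fin m → E ι → E ι) (g : RPn.Field ι),
  IsFrame J → IsMetric g →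
  (∀ i, ContinuousOn (stretch g J i) (Metric.sphere (0 : E ι) 1)) ∧
  (∀ i (x : E ι), ‖x‖ = 1 → 0 < stretch g J i x) ∧
  ContinuousOn (fun z : E ι × E ι => g z.1 z.2 z.2) {z | ON z.1 z.2} ∧
  ∀ e : E ι → ℝ, IsBound g J e → ∃ C : ℝ, 0 < C ∧ ∀ x u : E ι, ON x u →
    Real.sqrt (g x u u) ≤ e x + C * ∑ i, |(inner ℝ (J i x) u : ℝ)|

/-- [Cir] (hBas, hLen : StLen5, hStr) the circles of `J i`: `StLen5` for `v = J i x`; the derivative
of the circle is `J i` of the point (`hBas`), so the speed is `stretch g J i`. -/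
def StCirF : Prop := ∀ (ι : Type) [Fintype ι] (m : ℕ) (J : Fin m → E ι → E ι) (g : RPn.Field ι)
  (L : ℝ), IsFrame J → IsMetric g → Sys g L → ∀ i (x : E ι), ‖x‖ = 1 →
  L / Real.pi ≤ circMean (J i) (stretch g J i) x

/-- [Flo] (hBas, hIso : StIso) the means over the circles: `x -> circ (J i) x t` is a linear isometry
(`|cos t x + sin t J i x| = |x|`), so (StIso, Fubini) the integral of `circMean` is the integral; the
mean is continuous (`intervalIntegral` of a jointly continuous function, or uniform continuity), and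
monotone. -/
def StFloF : Prop := ∀ (ι : Type) [Fintype ι] [Nonempty ι] (m : ℕ) (J : Fin m → E ι → E ι),
  IsFrame J → ∀ (i : Fin m) (a : E ι → ℝ), ContinuousOn a (Metric.sphere (0 : E ι) 1) →
  ContinuousOn (circMean (J i) a) (Metric.sphere (0 : E ι) 1) ∧
  sInt (circMean (J i) a) = sInt a ∧
  ((∀ x : E ι, ‖x‖ = 1 → 0 ≤ a x) → ∀ x : E ι, ‖x‖ = 1 → 0 ≤ circMean (J i) a x)

/-- [Ind] (hBas, hIso : StIsoF, hI : StIso, hDis : StDis6) for a random orthonormal pair `(x, u)` the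
numbers `<J i x, u>` are independent of `x`.  `hDis` (choose a tangent isometry `T₀` at `x`:
`exists`) : the left side is `κ⁻¹ ∫ω e(Ax) smean (fun w => w(<J i Ax, A T₀ w>))`, `κ = smean 1`.  The
inner integral does not depend on `ω`: for two points `y`, `y'` (= `A_ω x`, `A_ω' x`) and tangent
isometries `T`, `T'` at them let `R` be the isometry of `hIso` with `R y = y'`, `R J i y = J i y'`;
`R T = T' S` for a linear isometry `S` of R^Q, and `smean` is invariant under `S` (StIso for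
`Fin Q`), so both are `smean (fun w => w(<J i y', T' w>))`. -/
def StIndF : Prop := ∀ Q : ℕ, 2 ≤ Q → ∀ (Fr : Frames (Ix 1 Q)) (m : ℕ)
  (J : Fin m → E (Ix 1 Q) → E (Ix 1 Q)) (w : (Fin m → ℝ) → ℝ) (e : E (Ix 1 Q) → ℝ), IsFrame J →
  Continuous w → ContinuousOn e (Metric.sphere (0 : E (Ix 1 Q)) 1) → ∀ x v : E (Ix 1 Q), ON x v →
  letI := Fr.ms
  ∫ ω, w (fun i => inner ℝ (J i (Fr.A ω x)) (Fr.A ω v)) * e (Fr.A ω x) ∂Fr.μ =
    (∫ ω, w (fun i => inner ℝ (J i (Fr.A ω x)) (Fr.A ω v)) ∂Fr.μ) * ∫ ω, e (Fr.A ω x) ∂Fr.μ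

/-- [Pos] (hBas, hIso : StIsoF, hI : StIso, hDis : StDis6) the weight has positive mean.  By `hDis`
(as in `Ind`) the integral is `κ⁻¹ smean (fun z => w(<J i y, T z>))` for one point `y` and one
tangent isometry `T`; the function of `z` is continuous, nonnegative, and positive at the `z` with
`T z` orthogonal to all `J i y` (exists: `m < Q`); the measure of the sphere is positive on open
sets (`toSphere.instIsOpenPosMeasure`). -/
def StPosF : Prop := ∀ Q : ℕ, 2 ≤ Q → ∀ (Fr : Frames (Ix 1 Q)) (m : ℕ)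
  (J : Fin m → E (Ix 1 Q) → E (Ix 1 Q)) (w : (Fin m → ℝ) → ℝ), m < Q → IsFrame J →
  Continuous w → (∀ s, 0 ≤ w s) → 0 < w 0 → ∀ x v : E (Ix 1 Q), ON x v →
  letI := Fr.ms
  0 < ∫ ω, w (fun i => inner ℝ (J i (Fr.A ω x)) (Fr.A ω v)) ∂Fr.μ

/-- [Hor] (hBas, hStr, hInd, hPos, hLen : StLen5) **the mean of `e`**.  For `ε > 0` let
`w s = ∏ max 0 (1 - |s_i| / ε)`.  For an orthonormal pair `(y, u)` (`StLen5`, `hStr`, `hBas`: the
numbers `s_i` are constant on the great circle) `L w(s) ≤ (1/2) ∫_0^(2 pi) w(s) (e (gc y u t) +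
C ∑ |s_i|) dt ≤ (1/2) ∫_0^(2 pi) w(s) e (gc y u t) dt + pi C m ε w(s)`.  Integrate over the frames
(`y = A x`, `u = A v`), Fubini, and `Frames.inv` for the pair `(gc x v t, gd x v t)` (`s_i` is the same
for `(A gc, A gd)`): `L W ≤ pi ∫ w e(Ax) + pi C m ε W = pi W ∫ e(Ax) + pi C m ε W`, `W = ∫ w > 0`.
Divide and let `ε` tend to 0. -/
def StHorF : Prop := ∀ Q : ℕ, 2 ≤ Q → ∀ (Fr : Frames (Ix 1 Q)) (m : ℕ)
  (J : Fin m → E (Ix 1 Q) → E (Ix 1 Q)) (g : RPn.Field (Ix 1 Q)) (e : E (Ix 1 Q) → ℝ) (L : ℝ),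
  m < Q → IsFrame J → IsMetric g → IsBound g J e → Sys g L → ∀ x v : E (Ix 1 Q), ON x v →
  letI := Fr.ms
  L / Real.pi ≤ ∫ ω, e (Fr.A ω x) ∂Fr.μ

/-- [Ind2] (hFlo) **induction over the class**.  `M = sInt 1 > 0`.  By induction `W` is continuous
and nonnegative on the sphere and `lam^d M ≤ sInt W`.  `ver`: `sInt (f W) ≥ sInt (mean f mean W) ≥
lam sInt (mean W) = lam sInt W`.  `cor`: divide by `M`.  `pow`: Jensen
(`ConvexOn.map_average_le` or `inner_le_Lp_mul_Lq`, `(sInt W / M)^p ≤ sInt (W^p) / M`). -/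
def StAdmF : Prop := ∀ (ι : Type) [Fintype ι] [Nonempty ι] (m : ℕ) (J : Fin m → E ι → E ι)
  (f : Fin m → E ι → ℝ) (e : E ι → ℝ) (lam : ℝ), IsFrame J → 0 < lam →
  (∀ i, ContinuousOn (f i) (Metric.sphere (0 : E ι) 1)) →
  ContinuousOn e (Metric.sphere (0 : E ι) 1) → (∀ i (x : E ι), ‖x‖ = 1 → 0 ≤ f i x) →
  (∀ x : E ι, ‖x‖ = 1 → 0 ≤ e x) →
  (∀ i (x : E ι), ‖x‖ = 1 → lam ≤ circMean (J i) (f i) x) →
  (m + 1 < Fintype.card ι → lam * sInt (ι := ι) (fun _ => 1) ≤ sInt e) →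
  ∀ (W : E ι → ℝ) (d : ℕ), Adm J f e W d →
    ContinuousOn W (Metric.sphere (0 : E ι) 1) ∧ (∀ x : E ι, ‖x‖ = 1 → 0 ≤ W x) ∧
    lam ^ d * sInt (ι := ι) (fun _ => 1) ≤ sInt W

/-- **The theorem** (hAdm, hHor, hCir, hStr, hAvg : StAvg, hFr : StFr, hVol : StVol, A6 : claimA6).
`L` from `claimA6`, `lam = L / pi`; `sInt e = M ∫ω e(Ax)` by `StAvg`; `Adm` for `W = volDensity g`. -/
def StMainF : Prop := ∀ Q : ℕ, 2 ≤ Q → ∀ (m : ℕ) (J : Fin m → E (Ix 1 Q) → E (Ix 1 Q))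
  (g : RPn.Field (Ix 1 Q)) (e : E (Ix 1 Q) → ℝ), IsFrame J → IsMetric g → IsBound g J e →
  Adm J (stretch g J) e (volDensity g) Q →
  ∃ (γ : ℝ → E (Ix 1 Q)) (l : ℝ), IsClosedGeodesic g γ l ∧
    (l / Real.pi) ^ Q ≤ vol g / vol (RPn.round : RPn.Field (Ix 1 Q))

/-! ### The diagonal metrics -/

/-- [Met] (hBas) `frameMetric` is a metric, its stretches are the `f i`, and `e` is a bound. -/
def StMetF : Prop := ∀ (ι : Type) [Fintype ι] (m : ℕ) (J : Fin m → E ι → E ι)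
  (f : Fin m → E ι → ℝ) (e : E ι → ℝ), IsFrame J → (∀ i, IsFun (f i)) → IsFun e →
  IsMetric (frameMetric J f e) ∧
  (∀ i (x : E ι), ‖x‖ = 1 → stretch (frameMetric J f e) J i x = f i x) ∧
  IsBound (frameMetric J f e) J e

/-- [Vd] (hBas) the volume density: `gram = e^2 + (1 - e^2) x x^T + ∑ (f_i^2 - e^2) (J i x)(J i x)^T`,
determinant by `Matrix.det_one_add_mul_comm` (columns `x`, `J i x` orthonormal). -/
def StVdF : Prop := ∀ (ι : Type) [Fintype ι] [DecidableEq ι] (m : ℕ) (J : Fin m → E ι → E ι)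
  (f : Fin m → E ι → ℝ) (e : E ι → ℝ), IsFrame J → (∀ i, IsFun (f i)) → IsFun e →
  ∀ x : E ι, ‖x‖ = 1 → volDensity (frameMetric J f e) x =
    (∏ i, f i x) * e x ^ (Fintype.card ι - 1 - m)

/-- [Exa] (hMet, hVd, hFlo) **examples**: Hopf type metrics `f^2 theta^2 + e^2 g_0|H` are in the class
if `f` or `e` is constant on the circles of `J`, or if `f ≤ e`, or if `e ≤ f`. -/
def StExaF : Prop := ∀ (ι : Type) [Fintype ι] [DecidableEq ι] [Nonempty ι]
  (J : Fin 1 → E ι → E ι) (f : Fin 1 → E ι → ℝ) (e : E ι → ℝ), 2 < Fintype.card ι → IsFrame J →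
  (∀ i, IsFun (f i)) → IsFun e →
  ((∀ (x : E ι) (t : ℝ), ‖x‖ = 1 → f 0 (circ (J 0) x t) = f 0 x) ∨
    (∀ (x : E ι) (t : ℝ), ‖x‖ = 1 → e (circ (J 0) x t) = e x) ∨
    (∀ x : E ι, ‖x‖ = 1 → f 0 x ≤ e x) ∨ (∀ x : E ι, ‖x‖ = 1 → e x ≤ f 0 x)) →
  Adm J (stretch (frameMetric J f e) J) e (volDensity (frameMetric J f e)) (Fintype.card ι - 1)

end Pool.Agent.Work.MP_02f065_gt.FR
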