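import Mathlib
import Pool.Agent.Work.MP_02f065_gt.FR.Stmts

/-!
MP_02f065_gt, block FR, item STR: the lengths of the frame.
-/

open MeasureTheory Set Filter Topology

noncomputable section

namespace Pool.Agent.Work.MP_02f065_gt.FR

open Pool.Agent.Work.MP_02f065_gt.RPn Pool.Agent.Work.MP_02f065_gt.Cvx

namespace XSTR

variable {ι : Type} [Fintype ι]

lemma sum_left {g : RPn.Field ι} (hg : IsMetric g) (x w : E ι) (s : Finset ι) (c : ι → ℝ)
    (f : ι → E ι) : g x (∑ i ∈ s, c i • f i) w = ∑ i ∈ s, c i * g x (f i) w := by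
  classical
  induction s using Finset.induction_on with
  | empty =>
    have h := hg.smul x 0 w 0
    simp only [zero_smul, zero_mul] at h
    simpa using h
  | insert i s hi ih => rw [Finset.sum_insert hi, Finset.sum_insert hi, hg.add, hg.smul, ih]

lemma expand [DecidableEq ι] {g : RPn.Field ι} (hg : IsMetric g) (x u : E ι) :
    g x u u = ∑ i, ∑ j, u i * (u j * g x (EuclideanSpace.single j 1)
      (EuclideanSpace.single i 1)) := by
  have hu : u = ∑ i, u i • (EuclideanSpace.single i (1 : ℝ) : E ι) := by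
    ext j
    simp [Finset.sum_apply, Pi.single_apply]
  have h1 : g x u u = g x (∑ i, u i • (EuclideanSpace.single i (1 : ℝ) : E ι)) u := by
    rw [← hu]
  rw [h1, sum_left hg]
  refine Finset.sum_congr rfl fun i _ => ?_
  have h2 : g x (EuclideanSpace.single i 1) u =
      ∑ j, u j * g x (EuclideanSpace.single j 1) (EuclideanSpace.single i 1) := by
    rw [hg.symm]
    have h3 : g x u (EuclideanSpace.single i 1) =
        g x (∑ j, u j • (EuclideanSpace.single j (1 : ℝ) : E ι)) (EuclideanSpace.single i 1) := by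
      rw [← hu]
    rw [h3, sum_left hg]
  rw [h2, Finset.mul_sum]

/-- joint continuity on pairs whose first member is a unit vector -/
lemma cont {g : RPn.Field ι} (hg : IsMetric g) :
    ContinuousOn (fun z : E ι × E ι => g z.1 z.2 z.2) {z | ‖z.1‖ = 1} := by
  classical
  have hms : MapsTo (fun z : E ι × E ι => z.1) {z | ‖z.1‖ = 1}
      (Metric.sphere (0 : E ι) 1) := by
    intro z hz
    have h1 : ‖z.1‖ = 1 := hz
    simpa using h1
  have hfst : ContinuousOn (fun z : E ι × E ι => z.1) {z | ‖z.1‖ = 1} :=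
    continuous_fst.continuousOn
  have he : (fun z : E ι × E ι => g z.1 z.2 z.2) = fun z : E ι × E ι =>
      ∑ i, ∑ j, z.2 i * (z.2 j * g z.1 (EuclideanSpace.single j 1)
        (EuclideanSpace.single i 1)) := by
    funext z
    exact expand hg z.1 z.2
  rw [he]
  refine continuousOn_finsetSum _ fun i _ => continuousOn_finsetSum _ fun j _ => ?_
  have h1 : ∀ i : ι, ContinuousOn (fun z : E ι × E ι => z.2 i) {z | ‖z.1‖ = 1} := by
    intro i
    have : Continuous (fun z : E ι × E ι => z.2 i) := by fun_prop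
    exact this.continuousOn
  exact (h1 i).mul ((h1 j).mul ((hg.cont _ _).comp hfst hms))

lemma zero_left {g : RPn.Field ι} (hg : IsMetric g) (x w : E ι) : g x 0 w = 0 := by
  have h := hg.smul x 0 w 0
  simp only [zero_smul, zero_mul] at h
  exact h

lemma nonneg {g : RPn.Field ι} (hg : IsMetric g) {x v : E ι} (hx : ‖x‖ = 1)
    (hv : inner ℝ x v = 0) : 0 ≤ g x v v := by
  by_cases h : v = 0
  · rw [h, zero_left hg]
  · exact (hg.pos x v hx hv h).le

/-- Cauchy-Schwarz -/
lemma cs {g : RPn.Field ι} (hg : IsMetric g) {x v w : E ι} (hx : ‖x‖ = 1)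
    (hv : inner ℝ x v = 0) (hw : inner ℝ x w = 0) :
    g x v w ^ 2 ≤ g x v v * g x w w := by
  by_cases h : w = 0
  · rw [hg.symm x v w, h, zero_left hg, zero_left hg]
    simp
  have hpos := hg.pos x w hx hw h
  set t : ℝ := -(g x v w) / g x w w with ht
  have htan : (inner ℝ x (v + t • w) : ℝ) = 0 := by
    rw [inner_add_right, inner_smul_right, hv, hw]
    ring
  have h1 := nonneg hg hx htan
  have h2 : g x (v + t • w) (v + t • w) = g x v v + 2 * t * g x v w + t ^ 2 * g x w w := by
    rw [hg.add, hg.smul, hg.symm x v (v + t • w), hg.symm x w (v + t • w), hg.add, hg.add,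
      hg.smul, hg.smul, hg.symm x w v]
    ring
  rw [h2] at h1
  have h3 : t * g x w w = -(g x v w) := by
    rw [ht]
    field_simp
  have h4 : (g x v v + 2 * t * g x v w + t ^ 2 * g x w w) * g x w w =
      g x v v * g x w w - g x v w ^ 2 := by
    calc (g x v v + 2 * t * g x v w + t ^ 2 * g x w w) * g x w w
        = g x v v * g x w w + 2 * (t * g x w w) * g x v w + (t * g x w w) ^ 2 := by ring
      _ = _ := by rw [h3]; ring
  have h5 := mul_nonneg h1 hpos.le
  rw [h4] at h5
  linarith

/-- triangle inequality -/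
lemma tri {g : RPn.Field ι} (hg : IsMetric g) {x v w : E ι} (hx : ‖x‖ = 1)
    (hv : inner ℝ x v = 0) (hw : inner ℝ x w = 0) :
    Real.sqrt (g x (v + w) (v + w)) ≤ Real.sqrt (g x v v) + Real.sqrt (g x w w) := by
  apply Real.sqrt_le_iff.2
  refine ⟨by positivity, ?_⟩
  have h1 := nonneg hg hx hv
  have h2 := nonneg hg hx hw
  have h3 : g x v w ≤ Real.sqrt (g x v v) * Real.sqrt (g x w w) := by
    rw [← Real.sqrt_mul h1]
    exact Real.le_sqrt_of_sq_le (cs hg hx hv hw)
  have h4 : g x (v + w) (v + w) = g x v v + 2 * g x v w + g x w w := by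
    rw [hg.add, hg.symm x v (v + w), hg.symm x w (v + w), hg.add, hg.add, hg.symm x w v]
    ring
  rw [h4, add_sq, Real.sq_sqrt h1, Real.sq_sqrt h2]
  linarith

lemma nsmul {g : RPn.Field ι} (hg : IsMetric g) (x v : E ι) (r : ℝ) :
    Real.sqrt (g x (r • v) (r • v)) = |r| * Real.sqrt (g x v v) := by
  rw [hg.smul, hg.symm x v (r • v), hg.smul, ← mul_assoc, ← sq, Real.sqrt_mul (sq_nonneg r),
    Real.sqrt_sq_eq_abs]

lemma tri_sum {g : RPn.Field ι} (hg : IsMetric g) {x : E ι} (hx : ‖x‖ = 1) {κ : Type}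
    (s : Finset κ) (c : κ → ℝ) (f : κ → E ι) (hf : ∀ i, inner ℝ x (f i) = 0) :
    inner ℝ x (∑ i ∈ s, c i • f i) = 0 ∧
    Real.sqrt (g x (∑ i ∈ s, c i • f i) (∑ i ∈ s, c i • f i)) ≤
      ∑ i ∈ s, |c i| * Real.sqrt (g x (f i) (f i)) := by
  classical
  induction s using Finset.induction_on with
  | empty =>
    refine ⟨by simp, ?_⟩
    rw [Finset.sum_empty, Finset.sum_empty, zero_left hg, Real.sqrt_zero]
  | insert i s hi ih =>
    have h1 : (inner ℝ x (c i • f i) : ℝ) = 0 := by
      rw [inner_smul_right, hf i, mul_zero]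
    rw [Finset.sum_insert hi, Finset.sum_insert hi]
    refine ⟨?_, ?_⟩
    · rw [inner_add_right, h1, ih.1, add_zero]
    · refine (tri hg hx h1 ih.1).trans ?_
      rw [nsmul hg]
      linarith [ih.2]

end XSTR

open XSTR in
theorem iSTR (hBas : StBasF) (hA : claimA1) : StStrF := by
  intro ι _ m J g hJ hg
  obtain ⟨b1, -, -, b4, b5, -⟩ := hBas ι m J hJ
  obtain ⟨m0, M, hm0, hM, hb⟩ := hA ι g hg
  have hstr : ∀ i (x : E ι), ‖x‖ = 1 → stretch g J i x ≤ M := by
    intro i x hx
    unfold stretch
    have h1 := (hb x (J i x) hx (hJ.tangent i x)).2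
    rw [(b4 i x).2.1, hx, one_pow, mul_one] at h1
    exact Real.sqrt_le_iff.2 ⟨hM.le, h1⟩
  refine ⟨?_, ?_, ?_, ?_⟩
  · intro i
    unfold stretch
    apply ContinuousOn.sqrt
    have h1 : ContinuousOn (fun x : E ι => (x, J i x)) (Metric.sphere (0 : E ι) 1) :=
      (continuous_id.prodMk (b1 i)).continuousOn
    exact (cont hg).comp h1 fun x hx => by simpa using hx
  · intro i x hx
    unfold stretch
    apply Real.sqrt_pos.2
    apply hg.pos x _ hx (hJ.tangent i x)
    intro h0
    have h1 := (b4 i x).2.1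
    rw [h0, norm_zero, hx] at h1
    exact zero_ne_one h1
  · exact (cont hg).mono fun z hz => hz.1
  · intro e he
    refine ⟨M, hM, ?_⟩
    intro x u hxu
    obtain ⟨hx, hu, hi⟩ := hxu
    set s : Fin m → ℝ := fun i => inner ℝ (J i x) u with hs
    set p : E ι := ∑ i, s i • J i x with hp
    set h : E ι := u - p with hh
    have hxx : (inner ℝ x x : ℝ) = 1 := by rw [real_inner_self_eq_norm_sq, hx]; norm_num
    have hJp : ∀ j, (inner ℝ (J j x) p : ℝ) = s j := by
      intro j
      rw [hp, inner_sum]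
      simp only [inner_smul_right, hJ.ortho, hxx]
      simp
    have htan := tri_sum hg hx Finset.univ s (fun i => J i x) (fun i => hJ.tangent i x)
    have hxh : (inner ℝ x h : ℝ) = 0 := by
      rw [hh, inner_sub_right, hi, htan.1, sub_zero]
    have hJh : ∀ j, (inner ℝ (J j x) h : ℝ) = 0 := by
      intro j
      rw [hh, inner_sub_right, hJp, sub_self]
    have hph : (inner ℝ p h : ℝ) = 0 := by
      rw [hp, sum_inner]
      apply Finset.sum_eq_zero
      intro i _
      rw [real_inner_smul_left, hJh, mul_zero]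
    have hhh : (inner ℝ h h : ℝ) ≤ 1 := by
      have h1 : u = p + h := by rw [hh]; abel
      have h2 : (inner ℝ u u : ℝ) = inner ℝ p p + inner ℝ h h := by
        conv_lhs => rw [h1]
        rw [inner_add_left, inner_add_right, inner_add_right, hph, real_inner_comm p h, hph]
        ring
      have h3 : (inner ℝ u u : ℝ) = 1 := by rw [real_inner_self_eq_norm_sq, hu]; norm_num
      have h4 : 0 ≤ (inner ℝ p p : ℝ) := real_inner_self_nonneg
      linarith
    have h1 : Real.sqrt (g x h h) ≤ e x := by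
      apply Real.sqrt_le_iff.2
      refine ⟨(he.pos x hx).le, (he.bound x h hx hxh hJh).trans ?_⟩
      calc e x ^ 2 * inner ℝ h h ≤ e x ^ 2 * 1 :=
            mul_le_mul_of_nonneg_left hhh (sq_nonneg _)
        _ = _ := mul_one _
    have h2 : Real.sqrt (g x u u) ≤ Real.sqrt (g x h h) + Real.sqrt (g x p p) := by
      have h3 : u = h + p := by rw [hh]; abel
      conv_lhs => rw [h3]
      exact tri hg hx hxh htan.1
    have h3 : Real.sqrt (g x p p) ≤ M * ∑ i, |s i| := by
      refine htan.2.trans ?_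
      rw [Finset.mul_sum]
      apply Finset.sum_le_sum
      intro i _
      rw [mul_comm M]
      exact mul_le_mul_of_nonneg_left (hstr i x hx) (abs_nonneg _)
    linarith

end Pool.Agent.Work.MP_02f065_gt.FR
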