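import Pool.Agent.Work.MP_02f065_gt.FR.Stmts

/-!
MP_02f065_gt, block FR, item VD: the volume density of the diagonal metrics.
-/

open MeasureTheory Set Filter Topology

noncomputable section

namespace Pool.Agent.Work.MP_02f065_gt.FR

open Pool.Agent.Work.MP_02f065_gt.RPn Pool.Agent.Work.MP_02f065_gt.Cvx

namespace XVD

variable {ι : Type} [Fintype ι] [DecidableEq ι] {m : ℕ} {J : Fin m → E ι → E ι}

/-- The columns `x`, `J i x`. -/
def U (J : Fin m → E ι → E ι) (x : E ι) : Matrix ι (Option (Fin m)) ℝ :=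
  Matrix.of fun k o => o.elim (x k) (fun i => J i x k)

theorem inner_ei (x : E ι) (k : ι) : (inner ℝ x (ei k) : ℝ) = x k := by
  unfold ei
  rw [EuclideanSpace.inner_single_right]
  simp

omit [DecidableEq ι] in
theorem inner_sum (x y : E ι) : (inner ℝ x y : ℝ) = ∑ k, x k * y k := by
  rw [PiLp.inner_apply]
  refine Finset.sum_congr rfl fun k _ => ?_
  simp [mul_comm]

omit [DecidableEq ι] in
theorem UU (hJ : IsFrame J) {x : E ι} (hx : ‖x‖ = 1) : (U J x).transpose * U J x = 1 := by
  have hxx : (inner ℝ x x : ℝ) = 1 := by rw [real_inner_self_eq_norm_sq, hx, one_pow]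
  ext o o'
  rw [Matrix.mul_apply, Matrix.one_apply]
  rcases o with _ | i <;> rcases o' with _ | j
  · simp only [U, Matrix.transpose_apply, Matrix.of_apply, Option.elim, if_true]
    rw [← inner_sum, hxx]
  · simp only [U, Matrix.transpose_apply, Matrix.of_apply, Option.elim]
    rw [← inner_sum, hJ.tangent]
    simp
  · simp only [U, Matrix.transpose_apply, Matrix.of_apply, Option.elim]
    rw [← inner_sum, real_inner_comm, hJ.tangent]
    simp
  · simp only [U, Matrix.transpose_apply, Matrix.of_apply, Option.elim]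
    rw [← inner_sum, hJ.ortho, hxx]
    simp

/-- The diagonal. -/
def D (f : Fin m → E ι → ℝ) (e : E ι → ℝ) (x : E ι) : Option (Fin m) → ℝ :=
  fun o => o.elim ((1 - e x ^ 2) / e x ^ 2) (fun i => (f i x ^ 2 - e x ^ 2) / e x ^ 2)

theorem gram_eq (hJ : IsFrame J) {x : E ι} (hx : ‖x‖ = 1) (f : Fin m → E ι → ℝ) (e : E ι → ℝ)
    (he : e x ≠ 0) : Matrix.of (gram (frameMetric J f e) x) =
      e x ^ 2 • (1 + (U J x * Matrix.diagonal (D f e x)) * (U J x).transpose) := by
  have hxx : (inner ℝ x x : ℝ) = 1 := by rw [real_inner_self_eq_norm_sq, hx, one_pow]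
  ext k l
  have h1 : ∀ i k, (inner ℝ (J i x) (tang x (ei k)) : ℝ) = J i x k := by
    intro i k
    unfold tang
    rw [inner_sub_right, inner_smul_right, real_inner_comm x (J i x), hJ.tangent, mul_zero,
      sub_zero, inner_ei]
  have h2 : (inner ℝ (tang x (ei k)) (tang x (ei l)) : ℝ) = (if k = l then 1 else 0) - x k * x l := by
    unfold tang
    rw [inner_sub_left, inner_sub_right, inner_sub_right, real_inner_smul_left,
      real_inner_smul_left, inner_smul_right, inner_smul_right, hxx, real_inner_comm x (ei k),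
      inner_ei, inner_ei, inner_ei]
    have : (ei k : E ι) l = if k = l then 1 else 0 := by
      unfold ei
      simp [eq_comm]
    rw [this]
    ring
  rw [Matrix.of_apply]
  unfold gram frameMetric
  simp only [h1, h2]
  rw [Matrix.smul_apply, Matrix.add_apply, Matrix.one_apply, Matrix.mul_apply, smul_eq_mul]
  rw [Fintype.sum_option]
  simp only [Matrix.mul_diagonal, Matrix.transpose_apply, U, Matrix.of_apply, Option.elim, D]
  have e1 : ∑ i, f i x ^ 2 * (J i x k * J i x l) + e x ^ 2 *
      ((if k = l then 1 else 0) - x k * x l - ∑ i, J i x k * J i x l) =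
      e x ^ 2 * (if k = l then 1 else 0) - e x ^ 2 * (x k * x l) +
        ∑ i, (f i x ^ 2 - e x ^ 2) * (J i x k * J i x l) := by
    simp only [sub_mul, Finset.sum_sub_distrib, ← Finset.mul_sum]
    ring
  rw [e1, mul_add, mul_add, Finset.mul_sum]
  have e2 : ∀ i, e x ^ 2 * (J i x k * ((f i x ^ 2 - e x ^ 2) / e x ^ 2) * J i x l) =
      (f i x ^ 2 - e x ^ 2) * (J i x k * J i x l) := by
    intro i
    field_simp
  simp only [e2]
  field_simp
  ring

end XVD

theorem iVD (hBas : StBasF) : StVdF := by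
  intro ι _ _ m J f e hJ hf he x hx
  have hm := (hBas ι m J hJ).2.2.2.2.2.2.2.2 x hx
  have he0 := he.pos x hx
  have hne : e x ≠ 0 := he0.ne'
  have hprod : 0 ≤ ∏ i, f i x := Finset.prod_nonneg fun i _ => ((hf i).pos x hx).le
  unfold volDensity
  rw [XVD.gram_eq hJ hx f e hne, Matrix.det_smul, Matrix.det_one_add_mul_comm,
    ← Matrix.mul_assoc, XVD.UU hJ hx, Matrix.one_mul, ← Matrix.diagonal_one,
    Matrix.diagonal_add, Matrix.det_diagonal, Fintype.prod_option]
  simp only [XVD.D, Option.elim]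
  have e1 : ∀ i, 1 + (f i x ^ 2 - e x ^ 2) / e x ^ 2 = f i x ^ 2 / e x ^ 2 := by
    intro i
    field_simp
    ring
  have e2 : 1 + (1 - e x ^ 2) / e x ^ 2 = 1 / e x ^ 2 := by
    field_simp
    ring
  simp only [e1, e2, Finset.prod_div_distrib, Finset.prod_const, Finset.card_univ, Fintype.card_fin,
    Finset.prod_pow]
  obtain ⟨r, hr⟩ : ∃ r, Fintype.card ι = r + 1 + m := ⟨Fintype.card ι - 1 - m, by omega⟩
  have e3 : Fintype.card ι - 1 - m = r := by omega
  rw [e3, hr]
  have e4 : (e x ^ 2) ^ (r + 1 + m) * (1 / e x ^ 2 * ((∏ i, f i x) ^ 2 / (e x ^ 2) ^ m)) =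
      ((∏ i, f i x) * e x ^ r) ^ 2 := by
    rw [pow_add, pow_add, pow_one]
    field_simp
    ring
  rw [e4]
  exact Real.sqrt_sq (by positivity)

end Pool.Agent.Work.MP_02f065_gt.FR
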