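import Pool.Agent.Work.MP_02f065_gt.Cvx.All
import Pool.Agent.Work.MP_02f065_gt.Cvx.I_DIS6
import Pool.Agent.Work.MP_02f065_gt.Cvx.I_LEN5
import Pool.Agent.Work.MP_02f065_gt.FR.I_MAIN
import Pool.Agent.Work.MP_02f065_gt.FR.I_STR
import Pool.Agent.Work.MP_02f065_gt.FR.I_BAS
import Pool.Agent.Work.MP_02f065_gt.FR.I_ADM
import Pool.Agent.Work.MP_02f065_gt.FR.I_MET
import Pool.Agent.Work.MP_02f065_gt.FR.I_VD
import Pool.Agent.Work.MP_02f065_gt.FR.I_IND
import Pool.Agent.Work.MP_02f065_gt.FR.I_CIR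
import Pool.Agent.Work.MP_02f065_gt.FR.I_FLO
import Pool.Agent.Work.MP_02f065_gt.FR.I_HOR

/-! Block FR of MP_02f065_gt: all items put together. -/

open MeasureTheory Set Filter Topology

noncomputable section

namespace Pool.Agent.Work.MP_02f065_gt.FR

open Pool.Agent.Work.MP_02f065_gt.RPn Pool.Agent.Work.MP_02f065_gt.Cvx

theorem StrF_holds : StStrF := iSTR iBAS itemA1
theorem FloF_holds : StFloF := iFLO iBAS Iso_holds
theorem CirF_holds : StCirF := iCIR iBAS StrF_holds iLEN5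
theorem IndF_holds : StIndF := iIND iBAS iISO Iso_holds iDIS6
theorem PosF_holds : StPosF := iPOS iBAS iISO Iso_holds iDIS6
theorem HorF_holds : StHorF := iHOR iBAS StrF_holds IndF_holds PosF_holds iLEN5
theorem AdmF_holds : StAdmF := iADM FloF_holds
theorem MetF_holds : StMetF := iMET iBAS
theorem VdF_holds : StVdF := iVD iBAS

theorem mainF_holds : StMainF :=
  iMAIN StrF_holds CirF_holds HorF_holds AdmF_holds (iFR itemHaar) (iAVG Iso_holds) Vol_holds
    A6_holds

end Pool.Agent.Work.MP_02f065_gt.FR
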