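import Pool.Agent.Work.MP_02f065_gt.RPn.Defs

/-!
MP_02f065_gt, block FR: metrics on RP^n (n odd) compared with a linear orthonormal frame
`J 0, .., J (m-1)` of the unit sphere; m = 1 is the Hopf fibration.
-/

open MeasureTheory Set

noncomputable section

namespace Pool.Agent.Work.MP_02f065_gt.FR

open Pool.Agent.Work.MP_02f065_gt.RPn

variable {ι : Type} [Fintype ι] {m : ℕ}

/-- `J 0, .., J (m-1)` are linear maps such that for every unit vector `x` the vectors `J i x` are
orthonormal and orthogonal to `x`. -/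
structure IsFrame (J : Fin m → E ι → E ι) : Prop where
  linear : ∀ i, IsLinearMap ℝ (J i)
  tangent : ∀ (i : Fin m) (x : E ι), inner ℝ x (J i x) = 0
  ortho : ∀ (i j : Fin m) (x : E ι), inner ℝ (J i x) (J j x) = if i = j then inner ℝ x x else 0

/-- The point with parameter `t` of the great circle through `x` in the direction `K x`. -/
def circ (K : E ι → E ι) (x : E ι) (t : ℝ) : E ι := Real.cos t • x + Real.sin t • K x

/-- The mean of `a` over this circle. -/
def circMean (K : E ι → E ι) (a : E ι → ℝ) (x : E ι) : ℝ :=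
  (1 / (2 * Real.pi)) * ∫ t in (0 : ℝ)..(2 * Real.pi), a (circ K x t)

/-- Integral over the unit sphere. -/
def sInt (a : E ι → ℝ) : ℝ :=
  ∫ x : Metric.sphere (0 : E ι) 1, a x ∂((volume : Measure (E ι)).toSphere)

/-- The `g`-length of `J i x`. -/
def stretch (g : RPn.Field ι) (J : Fin m → E ι → E ι) (i : Fin m) (x : E ι) : ℝ :=
  Real.sqrt (g x (J i x) (J i x))

/-- `e x` is a bound for the `g`-lengths of the unit tangent vectors at `x` which are orthogonal
to all `J i x`. -/
structure IsBound (g : RPn.Field ι) (J : Fin m → E ι → E ι) (e : E ι → ℝ) : Prop where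
  cont : ContinuousOn e (Metric.sphere (0 : E ι) 1)
  pos : ∀ x : E ι, ‖x‖ = 1 → 0 < e x
  bound : ∀ x v : E ι, ‖x‖ = 1 → inner ℝ x v = 0 → (∀ i, inner ℝ (J i x) v = 0) →
    g x v v ≤ e x ^ 2 * inner ℝ v v

/-- The smallest set of pairs (nonnegative function, degree) which contains `(u, 0)` for all `u`
with mean at least 1 and, if the `J i x` do not span the tangent space, `(e, 1)`, and is closed under
the following operations: multiplication with `f i` if the integral of the product is at least the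
integral of the product of the means over the circles of `J i`; products of functions with
nonnegative covariance; powers with a weight `u` of mean at most 1; convex combinations; increasing
the function. -/
inductive Adm (J : Fin m → E ι → E ι) (f : Fin m → E ι → ℝ) (e : E ι → ℝ) :
    (E ι → ℝ) → ℕ → Prop
  | base (u : E ι → ℝ) : ContinuousOn u (Metric.sphere (0 : E ι) 1) →
      (∀ x : E ι, ‖x‖ = 1 → 0 ≤ u x) → sInt (ι := ι) (fun _ => 1) ≤ sInt u → Adm J f e u 0
  | hor : m + 1 < Fintype.card ι → Adm J f e e 1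
  | ver (i : Fin m) (W : E ι → ℝ) (d : ℕ) : Adm J f e W d →
      sInt (fun x => circMean (J i) (f i) x * circMean (J i) W x) ≤
        sInt (fun x => f i x * W x) → Adm J f e (fun x => f i x * W x) (d + 1)
  | cor (W W' : E ι → ℝ) (d d' : ℕ) : Adm J f e W d → Adm J f e W' d' →
      sInt W * sInt W' ≤ sInt (ι := ι) (fun _ => 1) * sInt (fun x => W x * W' x) →
      Adm J f e (fun x => W x * W' x) (d + d')
  | pow (u W : E ι → ℝ) (d p : ℕ) : 1 ≤ p → ContinuousOn u (Metric.sphere (0 : E ι) 1) →
      ContinuousOn W (Metric.sphere (0 : E ι) 1) →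
      (∀ x : E ι, ‖x‖ = 1 → 0 ≤ u x ∧ 0 ≤ W x) → sInt u ≤ sInt (ι := ι) (fun _ => 1) →
      Adm J f e (fun x => u x * W x) d → Adm J f e (fun x => u x * W x ^ p) (p * d)
  | mix (W W' : E ι → ℝ) (d : ℕ) (t : ℝ) : 0 ≤ t → t ≤ 1 → Adm J f e W d → Adm J f e W' d →
      Adm J f e (fun x => t * W x + (1 - t) * W' x) d
  | mono (W W' : E ι → ℝ) (d : ℕ) : Adm J f e W d →
      ContinuousOn W' (Metric.sphere (0 : E ι) 1) → (∀ x : E ι, ‖x‖ = 1 → W x ≤ W' x) →
      Adm J f e W' d

/-- The metric `sum f_i^2 theta_i^2 + e^2 (g_0 - sum theta_i^2)`, `theta_i v = <J i x, v>`. -/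
def frameMetric (J : Fin m → E ι → E ι) (f : Fin m → E ι → ℝ) (e : E ι → ℝ) : RPn.Field ι :=
  fun x v w => ∑ i, f i x ^ 2 * (inner ℝ (J i x) v * inner ℝ (J i x) w) +
    e x ^ 2 * (inner ℝ v w - ∑ i, inner ℝ (J i x) v * inner ℝ (J i x) w)

/-- A positive continuous function on RP^n. -/
structure IsFun (a : E ι → ℝ) : Prop where
  cont : ContinuousOn a (Metric.sphere (0 : E ι) 1)
  pos : ∀ x : E ι, ‖x‖ = 1 → 0 < a x
  even : ∀ x : E ι, ‖x‖ = 1 → a (-x) = a x

end Pool.Agent.Work.MP_02f065_gt.FR
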