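import Pool.Agent.Work.MP_02f065_gt.FR.Defs

/-!
MP_02f065_gt, block FR: explicit metrics in the class.
-/

open MeasureTheory Set

noncomputable section

namespace Pool.Agent.Work.MP_02f065_gt.FR

open Pool.Agent.Work.MP_02f065_gt.RPn

variable {ι : Type} [Fintype ι] [DecidableEq ι] {m : ℕ}

/-- The function `a` is constant on the circles of `K`. -/
def Inv (K : E ι → E ι) (a : E ι → ℝ) : Prop :=
  ∀ (x : E ι) (t : ℝ), ‖x‖ = 1 → a (circ K x t) = a x

/-- The class of metrics of the theorem. -/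
def InClass (J : Fin m → E ι → E ι) (g : RPn.Field ι) : Prop :=
  ∃ e : E ι → ℝ, IsBound g J e ∧ Adm J (stretch g J) e (volDensity g) (Fintype.card ι - 1)

/-- Explicit conditions. `fibers`: any metric `g` with `f i ^ n v ≤ volDensity g`, `f i` the
`g`-length of `J i`, for a function `v` of mean at least 1, constant on the circles of `J i`. `curves`:
any metric `g` for which there are densities `a i ≥ 0`, constant
on the circles of `J i`, and `b ≥ 0` of total mass 1 (`b = 0` if the frame spans) and a function `u`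
of mean at most 1 with `(∑ a i f i + b e)^n ≤ u^(n-1) volDensity g`.
`conformal`: all metrics conformal to `theta^2 + w^2 (g_0 - theta^2)`, `w` constant on the circles of
`J i`. `comonotone`, `invariant`: diagonal metrics with comonotone functions, or such that for every
`i` the function `f i`, or `e` and all `f j`, `j > i`, are constant on the circles of `J i`. -/
inductive IsSpecial (J : Fin m → E ι → E ι) : RPn.Field ι → Prop
  | fibers (g : RPn.Field ι) (i : Fin m) (v : E ι → ℝ) : IsMetric g →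
      ContinuousOn v (Metric.sphere (0 : E ι) 1) → (∀ x : E ι, ‖x‖ = 1 → 0 < v x) →
      Inv (J i) v → sInt (ι := ι) (fun _ => 1) ≤ sInt v →
      (∀ x : E ι, ‖x‖ = 1 → stretch g J i x ^ (Fintype.card ι - 1) * v x ≤ volDensity g x) →
      IsSpecial J g
  | curves (g : RPn.Field ι) (a : Fin m → E ι → ℝ) (b : ℝ) (e u : E ι → ℝ) : IsMetric g →
      IsBound g J e → (∀ i, ContinuousOn (a i) (Metric.sphere (0 : E ι) 1)) →
      (∀ i (x : E ι), ‖x‖ = 1 → 0 ≤ a i x) → (∀ i, Inv (J i) (a i)) → 0 ≤ b →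
      (m + 1 = Fintype.card ι → b = 0) →
      ∑ i, sInt (a i) + b * sInt (ι := ι) (fun _ => 1) = sInt (ι := ι) (fun _ => 1) →
      ContinuousOn u (Metric.sphere (0 : E ι) 1) → (∀ x : E ι, ‖x‖ = 1 → 0 < u x) →
      sInt u ≤ sInt (ι := ι) (fun _ => 1) →
      (∀ x : E ι, ‖x‖ = 1 → (∑ i, a i x * stretch g J i x + b * e x) ^ (Fintype.card ι - 1) ≤
        u x ^ (Fintype.card ι - 2) * volDensity g x) → IsSpecial J g
  | conformal (i : Fin m) (φ w : E ι → ℝ) : m = 1 → IsFun φ → IsFun w → Inv (J i) w →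
      IsSpecial J (frameMetric J (fun _ => φ) fun x => φ x * w x)
  | comonotone (f : Fin m → E ι → ℝ) (e : E ι → ℝ) : (∀ i, IsFun (f i)) → IsFun e →
      (∀ (i j : Fin m) (x y : E ι), ‖x‖ = 1 → ‖y‖ = 1 → 0 ≤ (f i x - f i y) * (f j x - f j y)) →
      (∀ (i : Fin m) (x y : E ι), ‖x‖ = 1 → ‖y‖ = 1 → 0 ≤ (f i x - f i y) * (e x - e y)) →
      IsSpecial J (frameMetric J f e)
  | invariant (f : Fin m → E ι → ℝ) (e : E ι → ℝ) : (∀ i, IsFun (f i)) → IsFun e →
      (∀ i, Inv (J i) (f i) ∨ (Inv (J i) e ∧ ∀ j, i < j → Inv (J i) (f j))) →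
      IsSpecial J (frameMetric J f e)

/-- The explicit metrics are in the class. -/
def StExgF : Prop := ∀ (ι : Type) [Fintype ι] [DecidableEq ι] (m : ℕ) (J : Fin m → E ι → E ι)
  (g : RPn.Field ι), 2 ≤ Fintype.card ι → IsFrame J → IsSpecial J g → IsMetric g ∧ InClass J g

end Pool.Agent.Work.MP_02f065_gt.FR
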