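import Pool.Agent.Work.MP_02f065_gt.FR.Stmts
import Pool.Agent.Work.MP_02f065_gt.FR.Defs2
import Pool.Agent.Work.MP_02f065_gt.FR.I_ADM
import Pool.Agent.Work.MP_02f065_gt.RPn.Stmts

/-!
MP_02f065_gt, block FR, item EXG: explicit families in the class.
-/

open MeasureTheory Set Filter Topology

noncomputable section

namespace Pool.Agent.Work.MP_02f065_gt.FR

open Pool.Agent.Work.MP_02f065_gt.RPn Pool.Agent.Work.MP_02f065_gt.Cvx

namespace XEXG

variable {ι : Type} [Fintype ι] {m : ℕ}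

theorem circ_norm {J : Fin m → E ι → E ι} (hJ : IsFrame J) (i : Fin m) (x : E ι) (hx : ‖x‖ = 1)
    (t : ℝ) : ‖circ (J i) x t‖ = 1 := by
  have h1 := hJ.tangent i x
  have h2 := hJ.ortho i i x
  rw [if_pos rfl, real_inner_self_eq_norm_sq, real_inner_self_eq_norm_sq, hx] at h2
  have h3 : ‖circ (J i) x t‖ ^ 2 = 1 := by
    unfold circ
    rw [norm_add_sq_real, norm_smul, norm_smul, inner_smul_left, inner_smul_right, h1, mul_pow,
      mul_pow, h2, hx, Real.norm_eq_abs, Real.norm_eq_abs, sq_abs, sq_abs]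
    have := Real.sin_sq_add_cos_sq t
    linarith
  have h4 : 0 ≤ ‖circ (J i) x t‖ := norm_nonneg _
  nlinarith

theorem sInt_congr (a b : E ι → ℝ) (h : ∀ x : E ι, ‖x‖ = 1 → a x = b x) : sInt a = sInt b := by
  unfold sInt
  apply integral_congr_ae
  exact Filter.Eventually.of_forall (fun x => h x (mem_sphere_zero_iff_norm.1 x.2))

theorem mean_c (K : E ι → E ι) (a : E ι → ℝ) (x : E ι) (c : ℝ) (h : ∀ t, a (circ K x t) = c) :
    circMean K a x = c := by
  unfold circMean
  simp only [h]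
  rw [intervalIntegral.integral_const, smul_eq_mul, sub_zero]
  have : (2 * Real.pi) ≠ 0 := by positivity
  field_simp

theorem mean_mul (K : E ι → E ι) (a W : E ι → ℝ) (x : E ι) (c : ℝ)
    (h : ∀ t, a (circ K x t) = c) :
    circMean K (fun y => a y * W y) x = c * circMean K W x := by
  unfold circMean
  simp only [h]
  rw [intervalIntegral.integral_const_mul]
  ring

theorem key {J : Fin m → E ι → E ι} (i : Fin m) (hflo : ∀ (a : E ι → ℝ),
      ContinuousOn a (Metric.sphere (0 : E ι) 1) → sInt (circMean (J i) a) = sInt a)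
    (a W : E ι → ℝ) (ha : ContinuousOn a (Metric.sphere (0 : E ι) 1))
    (hW : ContinuousOn W (Metric.sphere (0 : E ι) 1))
    (hc : ∀ x : E ι, ‖x‖ = 1 → ∀ t, a (circ (J i) x t) = a x) :
    sInt (fun x => circMean (J i) a x * circMean (J i) W x) = sInt (fun x => a x * W x) := by
  rw [← (hflo (fun x => a x * W x) (ha.mul hW))]
  apply sInt_congr
  intro x hx
  rw [mean_c (J i) a x (a x) (hc x hx), mean_mul (J i) a W x (a x) (hc x hx)]

theorem key' {J : Fin m → E ι → E ι} (i : Fin m) (hflo : ∀ (a : E ι → ℝ),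
      ContinuousOn a (Metric.sphere (0 : E ι) 1) → sInt (circMean (J i) a) = sInt a)
    (a W : E ι → ℝ) (ha : ContinuousOn a (Metric.sphere (0 : E ι) 1))
    (hW : ContinuousOn W (Metric.sphere (0 : E ι) 1))
    (hc : ∀ x : E ι, ‖x‖ = 1 → ∀ t, W (circ (J i) x t) = W x) :
    sInt (fun x => circMean (J i) a x * circMean (J i) W x) = sInt (fun x => a x * W x) := by
  have h := key i hflo W a hW ha hc
  have h2 : sInt (fun x => circMean (J i) a x * circMean (J i) W x) =
      sInt (fun x => circMean (J i) W x * circMean (J i) a x) := by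
    congr 1
    funext x
    ring
  have h3 : sInt (fun x => a x * W x) = sInt (fun x => W x * a x) := by
    congr 1
    funext x
    ring
  rw [h2, h3, h]

/-- Chebyshev's inequality. -/
theorem cheb (a b : E ι → ℝ) (ha : ContinuousOn a (Metric.sphere (0 : E ι) 1))
    (hb : ContinuousOn b (Metric.sphere (0 : E ι) 1))
    (h : ∀ x y : E ι, ‖x‖ = 1 → ‖y‖ = 1 → 0 ≤ (a x - a y) * (b x - b y)) :
    sInt a * sInt b ≤ sInt (ι := ι) (fun _ => 1) * sInt (fun x => a x * b x) := by
  have hab : ContinuousOn (fun x => a x * b x) (Metric.sphere (0 : E ι) 1) := ha.mul hb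
  have h1 : ∀ y : E ι, ‖y‖ = 1 → 0 ≤ sInt (fun x => a x * b x) - a y * sInt b - b y * sInt a +
      a y * b y * sInt (ι := ι) (fun _ => 1) := by
    intro y hy
    have h2 : sInt (fun x => (a x - a y) * (b x - b y)) = sInt (fun x => a x * b x) -
        a y * sInt b - b y * sInt a + a y * b y * sInt (ι := ι) (fun _ => 1) := by
      have c1 : ContinuousOn (fun x => a y * b x) (Metric.sphere (0 : E ι) 1) :=
        continuousOn_const.mul hb
      have c2 : ContinuousOn (fun x => b y * a x) (Metric.sphere (0 : E ι) 1) :=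
        continuousOn_const.mul ha
      have c3 : ContinuousOn (fun _ : E ι => a y * b y * 1) (Metric.sphere (0 : E ι) 1) :=
        continuousOn_const
      have c4 : ContinuousOn (fun x => a x * b x - a y * b x) (Metric.sphere (0 : E ι) 1) :=
        hab.sub c1
      have c5 : ContinuousOn (fun x => a x * b x - a y * b x - b y * a x)
        (Metric.sphere (0 : E ι) 1) := c4.sub c2
      rw [← XADM.sInt_cmul (a y) b, ← XADM.sInt_cmul (b y) a, ← XADM.sInt_cmul (a y * b y) (fun _ => 1),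
        ← XADM.sInt_sub hab c1, ← XADM.sInt_sub c4 c2, ← XADM.sInt_add c5 c3]
      congr 1
      funext x
      ring
    rw [← h2]
    exact XADM.nonneg fun x hx => h x y hx hy
  set A := sInt a with hA
  set B := sInt b with hB
  set AB := sInt (fun x => a x * b x) with hAB
  set M := sInt (ι := ι) (fun _ => 1) with hM
  have h3 : sInt (fun y => AB - a y * B - b y * A + a y * b y * M) =
      2 * (M * AB - A * B) := by
    have c0 : ContinuousOn (fun _ : E ι => AB * 1) (Metric.sphere (0 : E ι) 1) :=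
      continuousOn_const
    have c1 : ContinuousOn (fun x => B * a x) (Metric.sphere (0 : E ι) 1) :=
      continuousOn_const.mul ha
    have c2 : ContinuousOn (fun x => A * b x) (Metric.sphere (0 : E ι) 1) :=
      continuousOn_const.mul hb
    have c3 : ContinuousOn (fun x => M * (a x * b x)) (Metric.sphere (0 : E ι) 1) :=
      continuousOn_const.mul hab
    have h4 : sInt (fun y => AB - a y * B - b y * A + a y * b y * M) =
        sInt (fun y => AB * 1 - B * a y - A * b y + M * (a y * b y)) := by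
      congr 1
      funext x
      ring
    have c4 : ContinuousOn (fun x => AB * 1 - B * a x) (Metric.sphere (0 : E ι) 1) := c0.sub c1
    have c5 : ContinuousOn (fun x => AB * 1 - B * a x - A * b x) (Metric.sphere (0 : E ι) 1) :=
      c4.sub c2
    rw [h4, XADM.sInt_add c5 c3, XADM.sInt_sub c4 c2, XADM.sInt_sub c0 c1,
      XADM.sInt_cmul, XADM.sInt_cmul, XADM.sInt_cmul, XADM.sInt_cmul, ← hA, ← hB, ← hAB, ← hM]
    ring
  have h5 : 0 ≤ sInt (fun y => AB - a y * B - b y * A + a y * b y * M) :=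
    XADM.nonneg fun x hx => h1 x hx
  linarith

/-- nonnegative and comonotone with `c` -/
def Com (c u : E ι → ℝ) : Prop := (∀ x : E ι, ‖x‖ = 1 → 0 ≤ u x) ∧
  ∀ x y : E ι, ‖x‖ = 1 → ‖y‖ = 1 → 0 ≤ (c x - c y) * (u x - u y)

theorem Com.one (c : E ι → ℝ) : Com c (fun _ => 1) :=
  ⟨fun _ _ => zero_le_one, fun x y _ _ => by simp⟩

theorem Com.mul {c u v : E ι → ℝ} (hu : Com c u) (hv : Com c v) : Com c (fun x => u x * v x) := by
  refine ⟨fun x hx => mul_nonneg (hu.1 x hx) (hv.1 x hx), fun x y hx hy => ?_⟩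
  have h1 := mul_nonneg (hu.1 x hx) (hv.2 x y hx hy)
  have h2 := mul_nonneg (hv.1 y hy) (hu.2 x y hx hy)
  have h3 : (c x - c y) * (u x * v x - u y * v y) =
      u x * ((c x - c y) * (v x - v y)) + v y * ((c x - c y) * (u x - u y)) := by ring
  rw [h3]
  exact add_nonneg h1 h2

theorem Com.pow {c u : E ι → ℝ} (hu : Com c u) (k : ℕ) : Com c (fun x => u x ^ k) := by
  induction k with
  | zero => simpa using Com.one c
  | succ k ih =>
    have h := ih.mul hu
    simpa only [pow_succ] using h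

theorem Com.prod {c : E ι → ℝ} {κ : Type} (s : Finset κ) (u : κ → E ι → ℝ)
    (hu : ∀ k ∈ s, Com c (u k)) : Com c (fun x => ∏ k ∈ s, u k x) := by
  classical
  induction s using Finset.induction_on with
  | empty => simpa using Com.one c
  | insert k s hk ih =>
    have h := (hu k (Finset.mem_insert_self k s)).mul
      (ih fun j hj => hu j (Finset.mem_insert_of_mem hj))
    simpa only [Finset.prod_insert hk] using h

/-- the product of the last functions -/
def tp (F : Fin m → E ι → ℝ) (e : E ι → ℝ) (r k : ℕ) (x : E ι) : ℝ :=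
  (∏ i ∈ Finset.univ.filter (fun i : Fin m => k ≤ (i : ℕ)), F i x) * e x ^ r

theorem tp_step (F : Fin m → E ι → ℝ) (e : E ι → ℝ) (r : ℕ) (i : Fin m) :
    (fun x => F i x * tp F e r ((i : ℕ) + 1) x) = tp F e r (i : ℕ) := by
  classical
  funext x
  unfold tp
  rw [← mul_assoc]
  congr 1
  have h : Finset.univ.filter (fun j : Fin m => (i : ℕ) ≤ (j : ℕ)) =
      insert i (Finset.univ.filter (fun j : Fin m => (i : ℕ) + 1 ≤ (j : ℕ))) := by
    ext j
    simp only [Finset.mem_filter, Finset.mem_univ, true_and, Finset.mem_insert]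
    constructor
    · intro h
      by_cases hj : j = i
      · exact Or.inl hj
      · right
        have : (j : ℕ) ≠ i := fun h2 => hj (Fin.ext h2)
        omega
    · rintro (h | h)
      · rw [h]
      · omega
  rw [h, Finset.prod_insert]
  simp

theorem tp_cont {F : Fin m → E ι → ℝ} {e : E ι → ℝ}
    (hF : ∀ i, ContinuousOn (F i) (Metric.sphere (0 : E ι) 1))
    (he : ContinuousOn e (Metric.sphere (0 : E ι) 1)) (r k : ℕ) :
    ContinuousOn (tp F e r k) (Metric.sphere (0 : E ι) 1) := by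
  unfold tp
  exact (continuousOn_finsetProd _ fun i _ => hF i).mul (he.pow r)

theorem adm_one {J : Fin m → E ι → E ι} {F : Fin m → E ι → ℝ} {e : E ι → ℝ} :
    Adm J F e (fun _ => 1) 0 :=
  Adm.base _ continuousOn_const (fun _ _ => zero_le_one) le_rfl

theorem pow1 {J : Fin m → E ι → E ι} {F : Fin m → E ι → ℝ} {e W : E ι → ℝ} {d : ℕ}
    (hc : ContinuousOn W (Metric.sphere (0 : E ι) 1)) (h0 : ∀ x : E ι, ‖x‖ = 1 → 0 ≤ W x) (p : ℕ)
    (hW : Adm J F e W d) : Adm J F e (fun x => W x ^ p) (p * d) := by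
  rcases p with - | p
  · simpa using adm_one (J := J) (F := F) (e := e)
  · have h1 : Adm J F e (fun x => 1 * W x) d := by simpa using hW
    have h2 := Adm.pow (fun _ => 1) W d (p + 1) (by omega) continuousOn_const hc
      (fun x hx => ⟨zero_le_one, h0 x hx⟩) le_rfl h1
    simpa using h2

theorem build {J : Fin m → E ι → E ι} {F : Fin m → E ι → ℝ} {e : E ι → ℝ} (r : ℕ)
    (he : ContinuousOn e (Metric.sphere (0 : E ι) 1)) (he0 : ∀ x : E ι, ‖x‖ = 1 → 0 ≤ e x)
    (hr : r = 0 ∨ m + 1 < Fintype.card ι)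
    (hstep : ∀ i : Fin m, ∀ d, Adm J F e (tp F e r ((i : ℕ) + 1)) d →
      Adm J F e (tp F e r (i : ℕ)) (d + 1)) : Adm J F e (tp F e r 0) (m + r) := by
  have h0 : Adm J F e (tp F e r m) r := by
    have h1 : tp F e r m = fun x => e x ^ r := by
      funext x
      unfold tp
      rw [Finset.filter_false_of_mem, Finset.prod_empty, one_mul]
      intro i _
      have := i.2
      omega
    rw [h1]
    rcases hr with hr | hr
    · subst hr
      simpa using adm_one (J := J) (F := F) (e := e)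
    · have h2 := pow1 (J := J) (F := F) (W := e) (d := 1) he he0 r (Adm.hor hr)
      simpa using h2
  have h1 : ∀ k, k ≤ m → Adm J F e (tp F e r (m - k)) (r + k) := by
    intro k
    induction k with
    | zero => intro _; simpa using h0
    | succ k ih =>
      intro hk
      have h2 := ih (by omega)
      have h3 : m - k = (m - (k + 1)) + 1 := by omega
      rw [h3] at h2
      exact hstep ⟨m - (k + 1), by omega⟩ _ h2
  have h2 := h1 m le_rfl
  rw [Nat.sub_self, add_comm] at h2
  exact h2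

theorem adm_convex (J : Fin m → E ι → E ι) (F : Fin m → E ι → ℝ) (e : E ι → ℝ) (d : ℕ) :
    Convex ℝ {W : E ι → ℝ | Adm J F e W d} := by
  intro W hW W' hW' a b ha hb hab
  have h1 := Adm.mix W W' d a ha (by linarith) hW hW'
  have h2 : (fun x => a * W x + (1 - a) * W' x) = a • W + b • W' := by
    funext x
    have : b = 1 - a := by linarith
    simp [this]
  rw [h2] at h1
  exact h1

theorem fib {J : Fin m → E ι → E ι} {F : Fin m → E ι → ℝ} {e : E ι → ℝ} (i : Fin m)
    (hflo : ∀ (a : E ι → ℝ), ContinuousOn a (Metric.sphere (0 : E ι) 1) →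
      sInt (circMean (J i) a) = sInt a)
    (hFc : ContinuousOn (F i) (Metric.sphere (0 : E ι) 1)) {u : E ι → ℝ}
    (hu : ContinuousOn u (Metric.sphere (0 : E ι) 1)) (hu0 : ∀ x : E ι, ‖x‖ = 1 → 0 ≤ u x)
    (hinv : Inv (J i) u) (hM : sInt (ι := ι) (fun _ => 1) ≤ sInt u) :
    Adm J F e (fun x => F i x * u x) 1 := by
  have h1 := Adm.ver (J := J) (f := F) (e := e) i u 0 (Adm.base u hu hu0 hM)
    (key' i hflo (F i) u hFc hu (fun x hx t => hinv x t hx)).le
  rwa [zero_add] at h1

/-- the criterion for the family of curves -/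
theorem crit [Nonempty ι] {J : Fin m → E ι → E ι} {F : Fin m → E ι → ℝ} {e D u : E ι → ℝ}
    {a : Fin m → E ι → ℝ} {b : ℝ} (n : ℕ) (hn : 1 ≤ n)
    (hflo : ∀ (i : Fin m) (a : E ι → ℝ), ContinuousOn a (Metric.sphere (0 : E ι) 1) →
      sInt (circMean (J i) a) = sInt a)
    (hFc : ∀ i, ContinuousOn (F i) (Metric.sphere (0 : E ι) 1))
    (hF0 : ∀ i (x : E ι), ‖x‖ = 1 → 0 ≤ F i x)
    (hec : ContinuousOn e (Metric.sphere (0 : E ι) 1)) (he0 : ∀ x : E ι, ‖x‖ = 1 → 0 ≤ e x)
    (hDc : ContinuousOn D (Metric.sphere (0 : E ι) 1))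
    (hac : ∀ i, ContinuousOn (a i) (Metric.sphere (0 : E ι) 1))
    (ha0 : ∀ i (x : E ι), ‖x‖ = 1 → 0 ≤ a i x) (hinv : ∀ i, Inv (J i) (a i)) (hb : 0 ≤ b)
    (hb' : b ≠ 0 → m + 1 < Fintype.card ι)
    (hsum : ∑ i, sInt (a i) + b * sInt (ι := ι) (fun _ => 1) = sInt (ι := ι) (fun _ => 1))
    (huc : ContinuousOn u (Metric.sphere (0 : E ι) 1)) (hu0 : ∀ x : E ι, ‖x‖ = 1 → 0 < u x)
    (hu : sInt u ≤ sInt (ι := ι) (fun _ => 1))
    (hle : ∀ x : E ι, ‖x‖ = 1 → (∑ i, a i x * F i x + b * e x) ^ n ≤ u x ^ (n - 1) * D x) :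
    Adm J F e D n := by
  classical
  have hM := XADM.one_pos (ι := ι)
  set M := sInt (ι := ι) (fun _ => 1) with hMd
  set K : E ι → ℝ := fun x => ∑ i, a i x * F i x + b * e x with hK
  have hKc : ContinuousOn K (Metric.sphere (0 : E ι) 1) :=
    (continuousOn_finsetSum _ fun i _ => (hac i).mul (hFc i)).add (continuousOn_const.mul hec)
  have hK0 : ∀ x : E ι, ‖x‖ = 1 → 0 ≤ K x := fun x hx =>
    add_nonneg (Finset.sum_nonneg fun i _ => mul_nonneg (ha0 i x hx) (hF0 i x hx))
      (mul_nonneg hb (he0 x hx))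
  -- weights and functions
  set w : Option (Fin m) → ℝ := fun k => k.elim b fun i => sInt (a i) / M with hw
  set z : Option (Fin m) → E ι → ℝ := fun k => k.elim e fun i x => F i x *
    ((sInt (a i) / M)⁻¹ * a i x) with hz
  have hw0 : ∀ k, 0 ≤ w k := by
    rintro (- | i)
    · exact hb
    · exact div_nonneg (XADM.nonneg (ha0 i)) hM.le
  have hw1 : ∑ k, w k = 1 := by
    rw [Fintype.sum_option]
    have h1 : ∑ i, w (some i) = (∑ i, sInt (a i)) / M := (Finset.sum_div _ _ _).symm
    have h2 : w none = b := rfl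
    rw [h1, h2]
    field_simp
    linarith
  have hzm : ∀ k ∈ Finset.univ.filter (fun k => w k ≠ 0),
      z k ∈ {W : E ι → ℝ | Adm J F e W 1} := by
    rintro (- | i) hk
    · rw [Finset.mem_filter] at hk
      exact Adm.hor (hb' hk.2)
    · rw [Finset.mem_filter] at hk
      have hk2 : sInt (a i) / M ≠ 0 := hk.2
      refine fib i (hflo i) (hFc i) (continuousOn_const.mul (hac i))
        (fun x hx => mul_nonneg (inv_nonneg.2 (hw0 (some i))) (ha0 i x hx)) ?_ ?_
      · intro x t hx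
        change _ * a i (circ (J i) x t) = _ * a i x
        rw [hinv i x t hx]
      · rw [XADM.sInt_cmul, ← hMd, inv_div, div_mul_cancel₀]
        intro h
        exact hk2 (by rw [h, zero_div])
  have hconv := (adm_convex J F e 1).sum_mem (t := Finset.univ.filter (fun k => w k ≠ 0))
    (fun k _ => hw0 k) (by rw [Finset.sum_filter_ne_zero, hw1]) hzm
  have hKA : Adm J F e K 1 := by
    refine Adm.mono _ _ _ hconv hKc fun x hx => ?_
    rw [Finset.sum_apply]
    have h1 : ∀ k, 0 ≤ (w k • z k) x := by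
      rintro (- | i)
      · exact mul_nonneg hb (he0 x hx)
      · exact mul_nonneg (hw0 _) (mul_nonneg (hF0 i x hx)
          (mul_nonneg (inv_nonneg.2 (hw0 (some i))) (ha0 i x hx)))
    refine (Finset.sum_le_sum_of_subset_of_nonneg (Finset.filter_subset _ _)
      fun k _ _ => h1 k).trans ?_
    rw [Fintype.sum_option]
    have h2 : (w none • z none) x = b * e x := rfl
    have h3 : ∀ i, (w (some i) • z (some i)) x ≤ a i x * F i x := by
      intro i
      change sInt (a i) / M * (F i x * ((sInt (a i) / M)⁻¹ * a i x)) ≤ _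
      by_cases h4 : sInt (a i) / M = 0
      · rw [h4, zero_mul]
        exact mul_nonneg (ha0 i x hx) (hF0 i x hx)
      · apply le_of_eq
        have h9 : sInt (a i) / M * (F i x * ((sInt (a i) / M)⁻¹ * a i x)) =
            (sInt (a i) / M * (sInt (a i) / M)⁻¹) * (a i x * F i x) := by ring
        rw [h9, mul_inv_cancel₀ h4, one_mul]
    rw [h2, hK, add_comm]
    exact add_le_add (Finset.sum_le_sum fun i _ => h3 i) le_rfl
  -- the weighted power
  have hWc : ContinuousOn (fun x => K x / u x) (Metric.sphere (0 : E ι) 1) :=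
    hKc.div huc fun x hx => (hu0 x (mem_sphere_zero_iff_norm.1 hx)).ne'
  have h5 : Adm J F e (fun x => u x * (K x / u x)) 1 := by
    refine Adm.mono _ _ _ hKA (huc.mul hWc) fun x hx => ?_
    apply le_of_eq
    have := (hu0 x hx).ne'
    field_simp
  have h6 := Adm.pow u (fun x => K x / u x) 1 n hn huc hWc
    (fun x hx => ⟨(hu0 x hx).le, div_nonneg (hK0 x hx) (hu0 x hx).le⟩) hu h5
  rw [mul_one] at h6
  refine Adm.mono _ _ _ h6 hDc fun x hx => ?_
  have h7 := hle x hx
  have hux := hu0 x hx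
  obtain ⟨q, rfl⟩ : ∃ q, n = q + 1 := ⟨n - 1, by omega⟩
  change u x * (K x / u x) ^ (q + 1) ≤ D x
  rw [Nat.add_sub_cancel] at h7
  have h8 : u x * (K x / u x) ^ (q + 1) = K x ^ (q + 1) / u x ^ q := by
    rw [div_pow, pow_succ (u x)]
    field_simp
  rw [h8, div_le_iff₀ (by positivity), mul_comm]
  exact h7

theorem curves_in [DecidableEq ι] [Nonempty ι] (hBas : StBasF) (hStr : StStrF) (hFlo : StFloF)
    (hD : claimBD3) {J : Fin m → E ι → E ι} (hJ : IsFrame J) {g : RPn.Field ι}
    {a : Fin m → E ι → ℝ} {b : ℝ} {e u : E ι → ℝ} (hcard : 2 ≤ Fintype.card ι) (hg : IsMetric g)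
    (he : IsBound g J e)
    (hac : ∀ i, ContinuousOn (a i) (Metric.sphere (0 : E ι) 1))
    (ha0 : ∀ i (x : E ι), ‖x‖ = 1 → 0 ≤ a i x) (hinv : ∀ i, Inv (J i) (a i)) (hb : 0 ≤ b)
    (hb' : m + 1 = Fintype.card ι → b = 0)
    (hsum : ∑ i, sInt (a i) + b * sInt (ι := ι) (fun _ => 1) = sInt (ι := ι) (fun _ => 1))
    (huc : ContinuousOn u (Metric.sphere (0 : E ι) 1)) (hu0 : ∀ x : E ι, ‖x‖ = 1 → 0 < u x)
    (hu : sInt u ≤ sInt (ι := ι) (fun _ => 1))
    (hle : ∀ x : E ι, ‖x‖ = 1 → (∑ i, a i x * stretch g J i x + b * e x) ^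
      (Fintype.card ι - 1) ≤ u x ^ (Fintype.card ι - 2) * volDensity g x) : InClass J g := by
  have hm1 : m + 1 ≤ Fintype.card ι := by
    obtain ⟨k⟩ := ‹Nonempty ι›
    exact (hBas ι m J hJ).2.2.2.2.2.2.2.2 (EuclideanSpace.single k 1) (by simp)
  obtain ⟨hs1, hs2, -, -⟩ := hStr ι m J g hJ hg
  refine ⟨e, he, crit (Fintype.card ι - 1) (by omega)
    (fun i a ha => (hFlo ι m J hJ i a ha).2.1) hs1 (fun i x hx => (hs2 i x hx).le) he.cont
    (fun x hx => (he.pos x hx).le) (hD ι g hg) hac ha0 hinv hb (fun h => ?_) hsum huc hu0 hu ?_⟩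
  · rcases hm1.lt_or_eq with h1 | h1
    · exact h1
    · exact absurd (hb' h1) h
  · intro x hx
    have h1 : Fintype.card ι - 1 - 1 = Fintype.card ι - 2 := by omega
    rw [h1]
    exact hle x hx

theorem exists_bound (hStr : StStrF) {J : Fin m → E ι → E ι} (hJ : IsFrame J) {g : RPn.Field ι}
    (hg : IsMetric g) : ∃ e : E ι → ℝ, IsBound g J e := by
  obtain ⟨-, -, hc, -⟩ := hStr ι m J g hJ hg
  have hK : IsCompact {z : E ι × E ι | ON z.1 z.2} := by
    have h1 : {z : E ι × E ι | ON z.1 z.2} ⊆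
        Metric.sphere (0 : E ι) 1 ×ˢ Metric.sphere (0 : E ι) 1 := by
      rintro z ⟨hz1, hz2, -⟩
      exact ⟨mem_sphere_zero_iff_norm.2 hz1, mem_sphere_zero_iff_norm.2 hz2⟩
    have h2 : IsClosed {z : E ι × E ι | ON z.1 z.2} := by
      have h3 : {z : E ι × E ι | ON z.1 z.2} = {z | ‖z.1‖ = 1} ∩ ({z | ‖z.2‖ = 1} ∩
          {z | (inner ℝ z.1 z.2 : ℝ) = 0}) := rfl
      rw [h3]
      exact (isClosed_eq (continuous_norm.comp continuous_fst) continuous_const).inter
        ((isClosed_eq (continuous_norm.comp continuous_snd) continuous_const).inter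
          (isClosed_eq (continuous_fst.inner continuous_snd) continuous_const))
    exact ((isCompact_sphere _ _).prod (isCompact_sphere _ _)).of_isClosed_subset h2 h1
  obtain ⟨C, hC⟩ := hK.bddAbove_image hc
  refine ⟨fun _ => Real.sqrt (max C 1), continuousOn_const, fun _ _ => by positivity, ?_⟩
  intro x v hx hxv _
  rw [Real.sq_sqrt (by positivity)]
  by_cases hv : v = 0
  · have h0 : g x 0 0 = 0 := by
      have := hg.smul x 0 0 0
      simpa using this
    rw [hv, h0]
    simp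
  · have hn : ‖v‖ ≠ 0 := norm_ne_zero_iff.2 hv
    have hon : ON x (‖v‖⁻¹ • v) := by
      refine ⟨hx, ?_, ?_⟩
      · rw [norm_smul, norm_inv, norm_norm, inv_mul_cancel₀ hn]
      · rw [inner_smul_right, hxv, mul_zero]
    have h1 : g x (‖v‖⁻¹ • v) (‖v‖⁻¹ • v) ≤ C := hC ⟨(x, ‖v‖⁻¹ • v), hon, rfl⟩
    rw [hg.smul, hg.symm x v, hg.smul] at h1
    have h2 : g x v v = ‖v‖ ^ 2 * (‖v‖⁻¹ * (‖v‖⁻¹ * g x v v)) := by
      field_simp
    rw [h2, real_inner_self_eq_norm_sq, mul_comm]
    exact mul_le_mul_of_nonneg_right (h1.trans (le_max_left _ _)) (by positivity)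

theorem fib_in [DecidableEq ι] [Nonempty ι] (hStr : StStrF) (hFlo : StFloF)
    (hD : claimBD3) {J : Fin m → E ι → E ι} (hJ : IsFrame J) {g : RPn.Field ι} (i : Fin m)
    {v : E ι → ℝ} (hcard : 2 ≤ Fintype.card ι) (hg : IsMetric g)
    (hvc : ContinuousOn v (Metric.sphere (0 : E ι) 1)) (hv0 : ∀ x : E ι, ‖x‖ = 1 → 0 < v x)
    (hinv : Inv (J i) v) (hM : sInt (ι := ι) (fun _ => 1) ≤ sInt v)
    (hle : ∀ x : E ι, ‖x‖ = 1 → stretch g J i x ^ (Fintype.card ι - 1) * v x ≤ volDensity g x) :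
    InClass J g := by
  have hMp := XADM.one_pos (ι := ι)
  obtain ⟨e, he⟩ := exists_bound hStr hJ hg
  obtain ⟨hs1, hs2, -, -⟩ := hStr ι m J g hJ hg
  set M := sInt (ι := ι) (fun _ => 1) with hMd
  set c := sInt v / M with hc
  have hc1 : 1 ≤ c := by rw [hc, le_div_iff₀ hMp, one_mul]; exact hM
  have hci : 0 < c⁻¹ := inv_pos.2 (by linarith)
  have hint : sInt (fun x => c⁻¹ * v x) = M := by
    rw [XADM.sInt_cmul, hc, inv_div, div_mul_cancel₀]
    exact (hMp.trans_le hM).ne'
  have huc : ContinuousOn (fun x => c⁻¹ * v x) (Metric.sphere (0 : E ι) 1) :=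
    continuousOn_const.mul hvc
  have h1 := fib (F := stretch g J) (e := e) i (fun a ha => (hFlo ι m J hJ i a ha).2.1) (hs1 i)
    huc (fun x hx => (mul_pos hci (hv0 x hx)).le) (fun x t hx => by
      change c⁻¹ * v (circ (J i) x t) = c⁻¹ * v x
      rw [hinv x t hx]) hint.ge
  have h2 : (fun x => stretch g J i x * (c⁻¹ * v x)) =
      fun x => (c⁻¹ * v x) * stretch g J i x := by
    funext x
    ring
  rw [h2] at h1
  have h3 := Adm.pow (fun x => c⁻¹ * v x) (stretch g J i) 1 (Fintype.card ι - 1) (by omega) huc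
    (hs1 i) (fun x hx => ⟨(mul_pos hci (hv0 x hx)).le, (hs2 i x hx).le⟩) hint.le h1
  rw [mul_one] at h3
  refine ⟨e, he, Adm.mono _ _ _ h3 (hD ι g hg) fun x hx => ?_⟩
  refine le_trans ?_ (hle x hx)
  have h4 : 0 ≤ stretch g J i x ^ (Fintype.card ι - 1) * v x :=
    mul_nonneg (pow_nonneg (hs2 i x hx).le _) (hv0 x hx).le
  calc c⁻¹ * v x * stretch g J i x ^ (Fintype.card ι - 1) =
        c⁻¹ * (stretch g J i x ^ (Fintype.card ι - 1) * v x) := by ring
    _ ≤ _ := mul_le_of_le_one_left h4 (inv_le_one_of_one_le₀ hc1)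

theorem conf_in [DecidableEq ι] [Nonempty ι] (hBas : StBasF) (hStr : StStrF) (hFlo : StFloF)
    (hD : claimBD3) (hMet : StMetF) (hVd : StVdF) {J : Fin 1 → E ι → E ι} (hJ : IsFrame J)
    {φ w : E ι → ℝ} (hcard : 2 ≤ Fintype.card ι) (hφ : IsFun φ) (hw : IsFun w)
    (hinv : Inv (J 0) w) :
    InClass J (frameMetric J (fun _ => φ) fun x => φ x * w x) := by
  have hM := XADM.one_pos (ι := ι)
  have hfw : IsFun (fun x => φ x * w x) :=
    ⟨hφ.cont.mul hw.cont, fun x hx => mul_pos (hφ.pos x hx) (hw.pos x hx), fun x hx => by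
      change φ (-x) * w (-x) = φ x * w x
      rw [hφ.even x hx, hw.even x hx]⟩
  obtain ⟨hmet, hstr, hbd⟩ := hMet ι 1 J (fun _ => φ) (fun x => φ x * w x) hJ (fun _ => hφ) hfw
  have hvd := hVd ι 1 J (fun _ => φ) (fun x => φ x * w x) hJ (fun _ => hφ) hfw
  obtain ⟨r, hr⟩ : ∃ r, Fintype.card ι = r + 2 := ⟨Fintype.card ι - 2, by omega⟩
  have hn : Fintype.card ι - 1 = r + 1 := by omega
  have hn2 : Fintype.card ι - 2 = r := by omega
  have hvd' : ∀ x : E ι, ‖x‖ = 1 → volDensity (frameMetric J (fun _ => φ) fun x => φ x * w x) x =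
      φ x ^ (r + 1) * w x ^ r := by
    intro x hx
    have h1 : Fintype.card ι - 1 - 1 = r := by omega
    rw [hvd x hx, h1, Fin.prod_univ_one, mul_pow, pow_succ]
    ring
  set M := sInt (ι := ι) (fun _ => 1) with hMd
  have hwc : ContinuousOn (fun x => w x ^ r) (Metric.sphere (0 : E ι) 1) := hw.cont.pow r
  have hwp : ∀ x : E ι, ‖x‖ = 1 → 0 < w x ^ r := fun x hx => pow_pos (hw.pos x hx) r
  by_cases hcase : M ≤ sInt (fun x => w x ^ r)
  · set c := sInt (fun x => w x ^ r) / M with hc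
    have hc1 : 1 ≤ c := by rw [hc, le_div_iff₀ hM, one_mul]; exact hcase
    have hc0 : 0 < c := by linarith
    have hci : 0 < c⁻¹ := inv_pos.2 hc0
    have hint : sInt (fun x => c⁻¹ * w x ^ r) = M := by
      rw [XADM.sInt_cmul, hc, inv_div, div_mul_cancel₀]
      have := hM.trans_le hcase
      exact this.ne'
    refine curves_in (a := fun _ x => c⁻¹ * w x ^ r) (b := 0) (u := fun x => c⁻¹ * w x ^ r) hBas
      hStr hFlo hD hJ hcard hmet hbd (fun _ => continuousOn_const.mul hwc)
      (fun _ x hx => mul_nonneg hci.le (hwp x hx).le) ?_ le_rfl (fun _ => rfl) ?_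
      (continuousOn_const.mul hwc) (fun x hx => mul_pos hci (hwp x hx)) hint.le ?_
    · intro i x t hx
      have hi : i = 0 := Subsingleton.elim _ _
      rw [hi]
      change c⁻¹ * w (circ (J 0) x t) ^ r = c⁻¹ * w x ^ r
      rw [hinv x t hx]
    · rw [zero_mul, add_zero, Fin.sum_univ_one]
      exact hint
    · intro x hx
      rw [hn, hn2, hvd' x hx, Fin.sum_univ_one, hstr 0 x hx, zero_mul, add_zero]
      have h1 : (c⁻¹ * w x ^ r * φ x) ^ (r + 1) =
          c⁻¹ * ((c⁻¹ * w x ^ r) ^ r * (φ x ^ (r + 1) * w x ^ r)) := by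
        rw [mul_pow, pow_succ (c⁻¹ * w x ^ r)]
        ring
      rw [h1]
      have h2 : 0 ≤ (c⁻¹ * w x ^ r) ^ r * (φ x ^ (r + 1) * w x ^ r) := by
        have := (hwp x hx).le
        have := (hφ.pos x hx).le
        positivity
      have h3 : c⁻¹ ≤ 1 := inv_le_one_of_one_le₀ hc1
      exact mul_le_of_le_one_left h2 h3
  · push Not at hcase
    have hr0 : r ≠ 0 := by
      intro h
      rw [h] at hcase
      simp only [pow_zero] at hcase
      exact lt_irrefl _ hcase
    have hrpos : 0 < r := Nat.pos_of_ne_zero hr0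
    have huc : ContinuousOn (fun x => w x ^ ((r : ℝ)⁻¹)) (Metric.sphere (0 : E ι) 1) :=
      hw.cont.rpow_const fun x hx => Or.inl (hw.pos x (mem_sphere_zero_iff_norm.1 hx)).ne'
    have hur : ∀ x : E ι, ‖x‖ = 1 → (w x ^ ((r : ℝ)⁻¹)) ^ r = w x := fun x hx =>
      Real.rpow_inv_natCast_pow (hw.pos x hx).le hr0
    have hu0 : ∀ x : E ι, ‖x‖ = 1 → 0 < w x ^ ((r : ℝ)⁻¹) := fun x hx =>
      Real.rpow_pos_of_pos (hw.pos x hx) _
    have hint : sInt (fun x => w x ^ ((r : ℝ)⁻¹)) ≤ M := by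
      have h1 : sInt (fun x => ((r * r : ℕ) : ℝ) * w x ^ ((r : ℝ)⁻¹)) ≤
          sInt (fun x => w x ^ r + ((r * r : ℕ) - 1 : ℝ) * 1) := by
        refine XADM.mono (continuousOn_const.mul huc) (hwc.add continuousOn_const) fun x hx => ?_
        have h2 := one_add_mul_le_pow (show -2 ≤ w x ^ ((r : ℝ)⁻¹) - 1 by
          have := hu0 x hx; linarith) (r * r)
        have h3 : (1 + (w x ^ ((r : ℝ)⁻¹) - 1)) ^ (r * r) = w x ^ r := by
          rw [pow_mul, add_sub_cancel, hur x hx]
        rw [h3] at h2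
        linarith
      have c2 : ContinuousOn (fun _ : E ι => ((r * r : ℕ) - 1 : ℝ) * 1)
        (Metric.sphere (0 : E ι) 1) := continuousOn_const
      rw [XADM.sInt_cmul, XADM.sInt_add hwc c2, XADM.sInt_cmul, ← hMd] at h1
      have h4 : (0 : ℝ) < ((r * r : ℕ) : ℝ) := by positivity
      have h5 : ((r * r : ℕ) : ℝ) * sInt (fun x => w x ^ ((r : ℝ)⁻¹)) ≤ ((r * r : ℕ) : ℝ) * M := by
        linarith
      exact le_of_mul_le_mul_left h5 h4
    refine curves_in (a := fun _ _ => 0) (b := 1) (u := fun x => w x ^ ((r : ℝ)⁻¹)) hBas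
      hStr hFlo hD hJ hcard hmet hbd (fun _ => continuousOn_const) (fun _ _ _ => le_rfl)
      (fun _ _ _ _ => rfl) zero_le_one (fun h => absurd h (by omega)) ?_ huc hu0 hint ?_
    · have h1 : sInt (ι := ι) (fun _ => (0 : ℝ)) = 0 := by
        unfold sInt
        exact integral_zero _ _
      rw [Fin.sum_univ_one, h1, zero_add, one_mul]
    · intro x hx
      rw [hn, hn2, hvd' x hx, Fin.sum_univ_one, zero_mul, zero_add, one_mul, hur x hx, mul_pow,
        pow_succ (w x)]
      apply le_of_eq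
      ring

end XEXG

open XEXG in
theorem iEXG (hBas : StBasF) (hStr : StStrF) (hMet : StMetF) (hVd : StVdF) (hFlo : StFloF)
    (hD : claimBD3) : StExgF := by
  intro ι _ _ m J g hcard2 hJ hcase
  have : Nonempty ι := Fintype.card_pos_iff.1 (by omega)
  have hcard : m + 1 ≤ Fintype.card ι := by
    obtain ⟨k⟩ := ‹Nonempty ι›
    exact (hBas ι m J hJ).2.2.2.2.2.2.2.2 (EuclideanSpace.single k 1) (by simp)
  have hflo := fun i (a : E ι → ℝ) (ha : ContinuousOn a (Metric.sphere (0 : E ι) 1)) =>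
    (hFlo ι m J hJ i a ha).2.1
  -- the diagonal metrics
  have hdiag : ∀ (f : Fin m → E ι → ℝ) (e : E ι → ℝ), (∀ i, IsFun (f i)) → IsFun e →
      (∀ i : Fin m, ∀ d, Adm J (stretch (frameMetric J f e) J) e
        (tp (stretch (frameMetric J f e) J) e (Fintype.card ι - 1 - m) ((i : ℕ) + 1)) d →
      Adm J (stretch (frameMetric J f e) J) e
        (tp (stretch (frameMetric J f e) J) e (Fintype.card ι - 1 - m) (i : ℕ)) (d + 1)) →
      IsMetric (frameMetric J f e) ∧ InClass J (frameMetric J f e) := by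
    intro f e hf he hstep
    obtain ⟨hmet, hstr, hbd⟩ := hMet ι m J f e hJ hf he
    have hvd := hVd ι m J f e hJ hf he
    refine ⟨hmet, e, hbd, ?_⟩
    have hrr : Fintype.card ι - 1 - m = 0 ∨ m + 1 < Fintype.card ι := by omega
    have h1 := build (Fintype.card ι - 1 - m) he.cont (fun x hx => (he.pos x hx).le) hrr hstep
    have hr : m + (Fintype.card ι - 1 - m) = Fintype.card ι - 1 := by omega
    rw [hr] at h1
    refine Adm.mono _ _ _ h1 (hD ι _ hmet) fun x hx => ?_
    rw [hvd x hx]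
    unfold tp
    apply le_of_eq
    congr 1
    have h2 : (Finset.univ.filter fun i : Fin m => 0 ≤ (i : ℕ)) = Finset.univ := by
      ext i
      simp
    rw [h2]
    exact Finset.prod_congr rfl fun i _ => hstr i x hx
  rcases hcase with ⟨_, i, v, hg, hvc, hv0, hinv, hM, hle⟩ |
    ⟨_, a, b, e, u, hg, he, hac, ha0, hinv, hb, hb', hsum, huc, hu0, hu, hle⟩ |
    ⟨i, φ, w, hm, hφ, hw, hinv⟩ | ⟨f, e, hf, he, h1, h2⟩ | ⟨f, e, hf, he, h⟩
  · exact ⟨hg, fib_in hStr hFlo hD hJ i hcard2 hg hvc hv0 hinv hM hle⟩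
  · exact ⟨hg, curves_in hBas hStr hFlo hD hJ hcard2 hg he hac ha0 hinv hb hb' hsum huc hu0 hu
      hle⟩
  · subst hm
    have hi : i = 0 := Subsingleton.elim _ _
    rw [hi] at hinv
    have hfw : IsFun (fun x => φ x * w x) :=
      ⟨hφ.cont.mul hw.cont, fun x hx => mul_pos (hφ.pos x hx) (hw.pos x hx), fun x hx => by
        change φ (-x) * w (-x) = φ x * w x
        rw [hφ.even x hx, hw.even x hx]⟩
    exact ⟨(hMet ι 1 J (fun _ => φ) (fun x => φ x * w x) hJ (fun _ => hφ) hfw).1,
      conf_in hBas hStr hFlo hD hMet hVd hJ hcard2 hφ hw hinv⟩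
  · refine hdiag f e hf he fun i d hd => ?_
    obtain ⟨hmet, hstr, hbd⟩ := hMet ι m J f e hJ hf he
    set F := stretch (frameMetric J f e) J with hF
    have hFc : ∀ i, ContinuousOn (F i) (Metric.sphere (0 : E ι) 1) := fun i =>
      (hf i).cont.congr (fun x hx => hstr i x (mem_sphere_zero_iff_norm.1 hx))
    have hF0 : ∀ i (x : E ι), ‖x‖ = 1 → 0 < F i x := fun i x hx => by
      rw [hstr i x hx]; exact (hf i).pos x hx
    have hone : ∀ i, Adm J F e (F i) 1 := by
      intro i
      have h1 := fib (F := F) (e := e) i (hflo i) (hFc i) (u := fun _ => 1) continuousOn_const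
        (fun _ _ => zero_le_one) (fun _ _ _ => rfl) le_rfl
      simpa using h1
    have hcom : Com (F i) (tp F e (Fintype.card ι - 1 - m) ((i : ℕ) + 1)) := by
      have h3 : ∀ j, Com (F i) (F j) := fun j => by
        refine ⟨fun x hx => (hF0 j x hx).le, fun x y hx hy => ?_⟩
        rw [hstr i x hx, hstr i y hy, hstr j x hx, hstr j y hy]
        exact h1 i j x y hx hy
      have h4 : Com (F i) e := by
        refine ⟨fun x hx => (he.pos x hx).le, fun x y hx hy => ?_⟩
        rw [hstr i x hx, hstr i y hy]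
        exact h2 i x y hx hy
      exact (Com.prod _ F fun j _ => h3 j).mul (h4.pow _)
    have h5 := Adm.cor (F i) (tp F e (Fintype.card ι - 1 - m) ((i : ℕ) + 1)) 1 d (hone i) hd
      (cheb (F i) _ (hFc i) (tp_cont hFc he.cont _ _) hcom.2)
    rw [tp_step, add_comm] at h5
    exact h5
  · refine hdiag f e hf he fun i d hd => ?_
    obtain ⟨hmet, hstr, hbd⟩ := hMet ι m J f e hJ hf he
    set F := stretch (frameMetric J f e) J with hF
    have hFc : ∀ i, ContinuousOn (F i) (Metric.sphere (0 : E ι) 1) := fun i =>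
      (hf i).cont.congr (fun x hx => hstr i x (mem_sphere_zero_iff_norm.1 hx))
    have h5 : sInt (fun x => circMean (J i) (F i) x *
          circMean (J i) (tp F e (Fintype.card ι - 1 - m) ((i : ℕ) + 1)) x) ≤
        sInt (fun x => F i x * tp F e (Fintype.card ι - 1 - m) ((i : ℕ) + 1) x) := by
      rcases h i with h3 | ⟨h3, h4⟩
      · refine (key i (hflo i) (F i) _ (hFc i) (tp_cont hFc he.cont _ _) ?_).le
        intro x hx t
        rw [hstr i x hx, hstr i _ (circ_norm hJ i x hx t), h3 x t hx]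
      · refine (key' i (hflo i) (F i) _ (hFc i) (tp_cont hFc he.cont _ _) ?_).le
        intro x hx t
        unfold tp
        rw [h3 x t hx]
        congr 1
        refine Finset.prod_congr rfl fun j hj => ?_
        rw [hstr j x hx, hstr j _ (circ_norm hJ i x hx t)]
        refine h4 j ?_ x t hx
        rw [Finset.mem_filter] at hj
        exact Fin.lt_def.2 (by omega)
    have h6 := Adm.ver i (tp F e (Fintype.card ι - 1 - m) ((i : ℕ) + 1)) d hd h5
    rw [tp_step] at h6
    exact h6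

end Pool.Agent.Work.MP_02f065_gt.FR
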