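import Pool.Agent.Work.MP_02f065_gt.FR.All
import Pool.Agent.Work.MP_02f065_gt.FR.I_EXG

/-! Block FR of MP_02f065_gt: the final statement. -/

open MeasureTheory Set Filter Topology

noncomputable section

namespace Pool.Agent.Work.MP_02f065_gt.FR

open Pool.Agent.Work.MP_02f065_gt.RPn Pool.Agent.Work.MP_02f065_gt.Cvx

theorem ExgF_holds : StExgF := iEXG iBAS StrF_holds MetF_holds VdF_holds FloF_holds itemBD3

theorem final {Q : ℕ} (hQ : 2 ≤ Q) {m : ℕ} {J : Fin m → E (Ix 1 Q) → E (Ix 1 Q)}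
    (hJ : IsFrame J) :
    (∀ g : RPn.Field (Ix 1 Q), IsSpecial J g → IsMetric g ∧ InClass J g) ∧
    ∀ g : RPn.Field (Ix 1 Q), IsMetric g → InClass J g →
      ∃ (γ : ℝ → E (Ix 1 Q)) (l : ℝ), IsClosedGeodesic g γ l ∧
        (l / Real.pi) ^ Q ≤ vol g / vol (RPn.round : RPn.Field (Ix 1 Q)) := by
  have hcard : Fintype.card (Ix 1 Q) - 1 = Q := by
    simp [Fintype.card_sum]
  have hcard2 : 2 ≤ Fintype.card (Ix 1 Q) := by omega
  refine ⟨fun g hs => ExgF_holds (Ix 1 Q) m J g hcard2 hJ hs, fun g hg hc => ?_⟩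
  obtain ⟨e, he, hadm⟩ := hc
  rw [hcard] at hadm
  exact mainF_holds Q hQ m J g e hJ hg he hadm

end Pool.Agent.Work.MP_02f065_gt.FR
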