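import Pool.Agent.Work.MP_02f065_gt.FR.Stmts

/-!
MP_02f065_gt, block FR, item CIR: the circles of `J i`.
-/

set_option autoImplicit false

open MeasureTheory Set Filter Topology

noncomputable section

namespace Pool.Agent.Work.MP_02f065_gt.FR

open Pool.Agent.Work.MP_02f065_gt.RPn Pool.Agent.Work.MP_02f065_gt.Cvx

theorem iCIR (hBas : StBasF) (hStr : StStrF) (hLen : StLen5) : StCirF := by
  intro ι _ m J g L hJ hg hS i x hx
  have hB := hBas ι m J hJ
  have hO : ON x (J i x) := hB.2.2.2.2.1 i x hx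
  have hd : ∀ t : ℝ, J i (gc x (J i x) t) = gd x (J i x) t := hB.2.2.2.2.2.1 i x
  have h := hLen ι g L hg hS (hStr ι m J g hJ hg).2.2.1 x (J i x) hO
  have e : ∀ t : ℝ, stretch g J i (circ (J i) x t) =
      Real.sqrt (g (gc x (J i x) t) (gd x (J i x) t) (gd x (J i x) t)) := by
    intro t
    rw [← hd t]
    rfl
  unfold circMean
  simp only [e]
  rw [div_le_iff₀ Real.pi_pos]
  have hpi : (1 / (2 * Real.pi)) * (∫ t in (0 : ℝ)..(2 * Real.pi),
      Real.sqrt (g (gc x (J i x) t) (gd x (J i x) t) (gd x (J i x) t))) * Real.pi =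
      (1 / 2) * ∫ t in (0 : ℝ)..(2 * Real.pi),
      Real.sqrt (g (gc x (J i x) t) (gd x (J i x) t) (gd x (J i x) t)) := by
    field_simp
  rw [hpi]
  exact h

end Pool.Agent.Work.MP_02f065_gt.FR
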